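import Mathlib

set_option autoImplicit false

/-! A set of vertices which is independent together with two nonadjacent twins saves one biclique. -/

namespace Run7.h198.BC

open Finset

/-- the edges of `G` are partitioned into `r` bicliques (possibly empty) -/
def Part {V : Type} (G : SimpleGraph V) (r : ℕ) : Prop :=
  ∃ A B : Fin r → Finset V,
    (∀ i, Disjoint (A i) (B i)) ∧
    ∀ u v : V,
      (G.Adj u v → ∃! i, (u ∈ A i ∧ v ∈ B i) ∨ (v ∈ A i ∧ u ∈ B i)) ∧
      (¬ G.Adj u v → ∀ i, ¬ (u ∈ A i ∧ v ∈ B i))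

theorem BC_of_index {V ι : Type} [Fintype ι] (G : SimpleGraph V) (A B : ι → Finset V)
    (h1 : ∀ i, Disjoint (A i) (B i))
    (h2 : ∀ u v : V, G.Adj u v → ∃! i, (u ∈ A i ∧ v ∈ B i) ∨ (v ∈ A i ∧ u ∈ B i))
    (h3 : ∀ u v : V, ¬ G.Adj u v → ∀ i, ¬ (u ∈ A i ∧ v ∈ B i)) (r : ℕ)
    (hr : Fintype.card ι = r) : Part G r := by
  classical
  subst hr
  let e := (Fintype.equivFin ι).symm
  refine ⟨fun i => A (e i), fun i => B (e i), fun i => h1 _, fun u v => ⟨fun h => ?_, fun h i => h3 u v h _⟩⟩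
  obtain ⟨i, hi, hu⟩ := h2 u v h
  refine ⟨e.symm i, by simpa using hi, ?_⟩
  intro j hj
  have := hu (e j) hj
  rw [← this]
  simp

theorem det {n : ℕ} (G : SimpleGraph (Fin n)) (I : Finset (Fin n)) (a b : Fin n) (hab : a ≠ b)
    (ha : a ∉ I) (hb : b ∉ I) (hnab : ¬ G.Adj a b) (hI : ∀ u ∈ I, ∀ v ∈ I, ¬ G.Adj u v)
    (htw : ∀ w ∈ I, (G.Adj a w ↔ G.Adj b w)) : Part G (n - I.card - 1) := by
  classical
  have hnba : ¬ G.Adj b a := fun h => hnab h.symm
  let P : Fin n → Prop := fun x => x ∉ I ∧ x ≠ b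
  have hPa : P a := ⟨ha, hab⟩
  let A : {x // P x} → Finset (Fin n) := fun x => if x.1 = a then {a, b} else {x.1}
  let B : {x // P x} → Finset (Fin n) := fun x => if x.1 = a then I.filter (fun v => G.Adj a v)
    else univ.filter (fun v => G.Adj x.1 v ∧ (v ∈ I ∨ v = a ∨ v = b ∨ x.1 < v))
  -- the membership relation
  have hA : ∀ (x : {x // P x}) (u : Fin n), u ∈ A x ↔ (u = x.1 ∨ (x.1 = a ∧ u = b)) := by
    intro x u
    by_cases h : x.1 = a
    · simp only [A, if_pos h, h, mem_insert, mem_singleton, true_and]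
    · simp only [A, if_neg h, h, mem_singleton, false_and, or_false]
  have hB : ∀ (x : {x // P x}) (v : Fin n), v ∈ B x ↔ (G.Adj x.1 v ∧ ((x.1 = a ∧ v ∈ I) ∨
      (x.1 ≠ a ∧ (v ∈ I ∨ v = a ∨ v = b ∨ x.1 < v)))) := by
    intro x v
    by_cases h : x.1 = a
    · simp only [B, if_pos h, h, mem_filter]
      constructor
      · rintro ⟨h1, h2⟩
        exact ⟨h2, Or.inl ⟨trivial, h1⟩⟩
      · rintro ⟨h1, h2 | h2⟩
        · exact ⟨h2.2, h1⟩
        · exact absurd rfl h2.1
    · simp only [B, if_neg h, mem_filter, mem_univ, true_and]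
      constructor
      · rintro ⟨h1, h2⟩
        exact ⟨h1, Or.inr ⟨h, h2⟩⟩
      · rintro ⟨h1, h2 | h2⟩
        · exact absurd h2.1 h
        · exact ⟨h1, h2.2⟩
  -- containment in the edge set
  have hE : ∀ (x : {x // P x}) (u v : Fin n), u ∈ A x → v ∈ B x → G.Adj u v := by
    intro x u v hu hv
    rw [hA] at hu
    rw [hB] at hv
    rcases hu with rfl | ⟨h1, rfl⟩
    · exact hv.1
    · rcases hv.2 with h2 | h2
      · rw [h1] at hv
        exact (htw v h2.2).mp hv.1
      · exact absurd h1 h2.1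
  -- the key: each ordered pair with its index
  have key : ∀ u v : Fin n, G.Adj u v → ∀ x : {x // P x}, u ∈ A x → v ∈ B x →
      ∀ y : {x // P x}, (u ∈ A y ∧ v ∈ B y) ∨ (v ∈ A y ∧ u ∈ B y) → y = x := by
    intro u v huv x hu hv y hy
    rw [hA] at hu
    rw [hB] at hv
    rw [hA, hB, hA, hB] at hy
    have hxI := x.2.1
    have hxb := x.2.2
    have hyI := y.2.1
    have hyb := y.2.2
    apply Subtype.ext
    have huv' : u ≠ v := huv.ne
    rcases hu with hu | ⟨hu1, hu2⟩
    · rcases hy with ⟨hy1 | hy1, hy2⟩ | ⟨hy1 | hy1, hy2⟩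
      · rw [← hy1, ← hu]
      · exfalso; apply hxb; rw [← hu, hy1.2]
      · -- v = y, u = x
        exfalso
        rcases hv.2 with ⟨h3, h4⟩ | ⟨h3, h4⟩
        · apply hyI; rw [← hy1]; exact h4
        · rcases hy2.2 with ⟨h5, h6⟩ | ⟨h5, h6⟩
          · apply hxI; rw [← hu]; exact h6
          · rcases h4 with h4 | h4 | h4 | h4
            · apply hyI; rw [← hy1]; exact h4
            · apply h5; rw [← hy1, h4]
            · apply hyb; rw [← hy1, h4]
            · rcases h6 with h6 | h6 | h6 | h6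
              · apply hxI; rw [← hu]; exact h6
              · apply h3; rw [← hu, h6]
              · apply hxb; rw [← hu, h6]
              · rw [← hy1] at h6
                rw [← hu] at h4
                exact lt_asymm h4 h6
      · -- y = a, v = b, u = x
        exfalso
        rcases hy2.2 with ⟨h5, h6⟩ | ⟨h5, h6⟩
        · apply hxI; rw [← hu]; exact h6
        · exact h5 hy1.1
    · -- x = a, u = b, v ∈ I
      have hvI : v ∈ I := by
        rcases hv.2 with h3 | h3
        · exact h3.2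
        · exact absurd hu1 h3.1
      rcases hy with ⟨hy1 | hy1, hy2⟩ | ⟨hy1 | hy1, hy2⟩
      · exfalso; apply hyb; rw [← hy1, hu2]
      · rw [hy1.1, hu1]
      · exfalso; apply hyI; rw [← hy1]; exact hvI
      · exfalso; apply hb; rw [← hy1.2]; exact hvI
  have ex : ∀ u v : Fin n, G.Adj u v → (∃ x : {x // P x}, u ∈ A x ∧ v ∈ B x) ∨
      (∃ x : {x // P x}, v ∈ A x ∧ u ∈ B x) := by
    have one : ∀ u v : Fin n, G.Adj u v → v ∈ I → ∃ x : {x // P x}, u ∈ A x ∧ v ∈ B x := by
      intro u v huv hv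
      have huI : u ∉ I := fun h => hI u h v hv huv
      by_cases hub : u = b
      · refine ⟨⟨a, hPa⟩, ?_, ?_⟩
        · rw [hA]; exact Or.inr ⟨rfl, hub⟩
        · rw [hB]; refine ⟨?_, Or.inl ⟨rfl, hv⟩⟩
          rw [hub] at huv
          exact (htw v hv).mpr huv
      · refine ⟨⟨u, huI, hub⟩, ?_, ?_⟩
        · rw [hA]; exact Or.inl rfl
        · rw [hB]; refine ⟨huv, ?_⟩
          by_cases hua : u = a
          · exact Or.inl ⟨hua, hv⟩
          · exact Or.inr ⟨hua, Or.inl hv⟩
    have two : ∀ u v : Fin n, G.Adj u v → u ∉ I → v ∉ I → (v = a ∨ v = b) →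
        ∃ x : {x // P x}, u ∈ A x ∧ v ∈ B x := by
      intro u v huv hu hv hvab
      have hub : u ≠ b := by
        rintro rfl
        rcases hvab with rfl | rfl
        · exact hnba huv
        · exact huv.ne rfl
      have hua : u ≠ a := by
        rintro rfl
        rcases hvab with rfl | rfl
        · exact huv.ne rfl
        · exact hnab huv
      refine ⟨⟨u, hu, hub⟩, ?_, ?_⟩
      · rw [hA]; exact Or.inl rfl
      · rw [hB]; refine ⟨huv, Or.inr ⟨hua, ?_⟩⟩
        rcases hvab with h | h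
        · exact Or.inr (Or.inl h)
        · exact Or.inr (Or.inr (Or.inl h))
    have three : ∀ u v : Fin n, G.Adj u v → u ∉ I → u ≠ a → u ≠ b → u < v →
        ∃ x : {x // P x}, u ∈ A x ∧ v ∈ B x := by
      intro u v huv hu hua hub hlt
      refine ⟨⟨u, hu, hub⟩, ?_, ?_⟩
      · rw [hA]; exact Or.inl rfl
      · rw [hB]; exact ⟨huv, Or.inr ⟨hua, Or.inr (Or.inr (Or.inr hlt))⟩⟩
    intro u v huv
    by_cases hvI : v ∈ I
    · exact Or.inl (one u v huv hvI)
    by_cases huI : u ∈ I
    · exact Or.inr (one v u huv.symm huI)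
    by_cases hv : v = a ∨ v = b
    · exact Or.inl (two u v huv huI hvI hv)
    by_cases hu : u = a ∨ u = b
    · exact Or.inr (two v u huv.symm hvI huI hu)
    push Not at hu hv
    rcases lt_or_gt_of_ne huv.ne with h | h
    · exact Or.inl (three u v huv huI hu.1 hu.2 h)
    · exact Or.inr (three v u huv.symm hvI hv.1 hv.2 h)
  refine BC_of_index (ι := {x // P x}) G A B ?_ ?_ ?_ _ ?_
  · intro x
    rw [Finset.disjoint_left]
    intro u hu hu2
    exact (hE x u u hu hu2).ne rfl
  · intro u v huv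
    rcases ex u v huv with ⟨x, hx1, hx2⟩ | ⟨x, hx1, hx2⟩
    · exact ⟨x, Or.inl ⟨hx1, hx2⟩, fun y hy => key u v huv x hx1 hx2 y hy⟩
    · exact ⟨x, Or.inr ⟨hx1, hx2⟩, fun y hy => key v u huv.symm x hx1 hx2 y hy.symm⟩
  · intro u v huv x hx
    exact huv (hE x u v hx.1 hx.2)
  · rw [Fintype.card_subtype]
    have : (univ.filter P) = univ \ (insert b I) := by
      ext x
      simp only [P, mem_filter, mem_univ, true_and, mem_sdiff, mem_insert, not_or]
      tauto
    rw [this, card_sdiff_of_subset (subset_univ _), card_insert_of_notMem hb, card_univ,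
      Fintype.card_fin]
    omega

end Run7.h198.BC
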