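import Pool.Agent.Run7.h198.BC.Param

set_option autoImplicit false
set_option maxHeartbeats 1000000

/-! The final inequality. -/

namespace Run7.h198.BC

open Finset

theorem PP_val : PP (7 / 16) = 65 / 128 := by unfold PP; norm_num
theorem RR_val : RR (7 / 16) = 67 / 256 := by unfold RR; norm_num
theorem th2_val : RR (7 / 16) / PP (7 / 16) ^ 2 = 4288 / 4225 := by
  rw [PP_val, RR_val]; norm_num
theorem th3_val : 1 / PP (7 / 16) = 128 / 65 := by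
  rw [PP_val]; norm_num

theorem params (t : ℕ) (ht : 2 ≤ t) (H1 : 64 * (t : ℝ) ^ 2 * (3 / 4) ^ t ≤ 1)
    (H2 : ((2 * t : ℕ) : ℝ) ^ 2 * (54 / 65) ^ (2 * t) ≤ 1 / 10000) :
    ∃ n : ℕ, 1 < ((n : ℝ) + 1) * (3 / 4) ^ (2 * t) ∧
      (n.choose (2 * t + 1) : ℝ) * (3 / 4) ^ ((2 * t + 1) * (2 * t)) ≤ 1 / 8 ∧
      ∃ m N : ℕ, N = n - 2 * m ∧ 2 * m ≤ n ∧ 0 < m ∧ 2 * t ≤ N ∧
      ∃ b1 b2 b3 : ℝ, OS (3 / 4) (2 * t) N 1 ≤ b1 ∧
        OS (3 / 4) (2 * t) N (RR (7 / 16) / PP (7 / 16) ^ 2) ≤ b2 ∧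
        OS (3 / 4) (2 * t) N (1 / PP (7 / 16)) ≤ b3 ∧
        (m : ℝ) ^ 4 * (1 - 7 / 16) ^ 2 * b1 + 2 * (m : ℝ) ^ 3 * (1 - 7 / 16) ^ 2 * b2 +
        (m : ℝ) ^ 2 * (1 - 7 / 16) * b3 ≤
          4 * (m : ℝ) ^ 4 * (1 - 7 / 16) ^ 2 * (N.choose (2 * t) : ℕ) := by
  have hs0 : (0 : ℝ) < 3 / 4 := by norm_num
  have hs1 : (3 / 4 : ℝ) < 1 := by norm_num
  obtain ⟨n, h, h'⟩ := exists_n (3 / 4) hs0 (2 * t) (by omega)
  have hlow := n_lower (3 / 4) hs0 (2 * t) n (by omega) h'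
  have hup := n_upper (3 / 4) hs0 hs1 (2 * t) n h
  have hmu := mu_lower (3 / 4) hs0 hs1 (2 * t) n h h'
  refine ⟨n, hlow, h, ?_⟩
  set k : ℕ := 2 * t with hk
  have htR : (2 : ℝ) ≤ t := by exact_mod_cast ht
  have hkR : (k : ℝ) = 2 * t := by rw [hk]; push_cast; ring
  set sk : ℝ := (3 / 4 : ℝ) ^ k with hsk
  set st : ℝ := (3 / 4 : ℝ) ^ t with hst
  have hst0 : 0 < st := by positivity
  have hst1 : st ≤ 1 := pow_le_one₀ hs0.le hs1.le
  have hskst : sk = st * st := by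
    rw [hsk, hst, hk, two_mul, pow_add]
  have hsk0 : 0 < sk := by positivity
  have h8k : 8 * (k : ℝ) * sk ≤ 1 := by
    rw [hkR, hskst]
    have h1 : 16 * (t : ℝ) ≤ 64 * (t : ℝ) ^ 2 := by nlinarith
    calc 8 * (2 * (t : ℝ)) * (st * st) = (16 * (t : ℝ)) * st * st := by ring
      _ ≤ (64 * (t : ℝ) ^ 2) * st * st := by
          apply mul_le_mul_of_nonneg_right _ hst0.le
          exact mul_le_mul_of_nonneg_right h1 hst0.le
      _ ≤ 1 * st := mul_le_mul_of_nonneg_right H1 hst0.le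
      _ ≤ 1 := by linarith
  have hk4 : (4 : ℝ) ≤ k := by rw [hkR]; linarith
  have hsk32 : 32 * sk ≤ 1 := by nlinarith
  set m : ℕ := n / (4 * k) with hm
  have hmle : 4 * k * m ≤ n := Nat.mul_div_le n (4 * k)
  have hmlt : n < 4 * k * (m + 1) := by
    have := Nat.lt_mul_div_succ n (b := 4 * k) (by omega)
    exact this
  have hk_pos : 4 ≤ k := by omega
  have h2m : 2 * m ≤ n := by nlinarith
  have h4m : 4 * m ≤ n := by nlinarith
  set N : ℕ := n - 2 * m with hN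
  have hNR : (N : ℝ) = n - 2 * m := by
    rw [hN, Nat.cast_sub h2m]; push_cast; ring
  have hmR : (4 : ℝ) * k * m ≤ n := by exact_mod_cast hmle
  have hmR' : (n : ℝ) + 1 ≤ 4 * k * (m + 1) := by exact_mod_cast hmlt
  have h4mR : (4 : ℝ) * m ≤ n := by exact_mod_cast h4m
  have hN2 : (n : ℝ) ≤ 2 * N := by rw [hNR]; linarith
  have hm8 : 1 ≤ 8 * (k : ℝ) * m * sk := by
    have h1 : 1 < 4 * (k : ℝ) * (m + 1) * sk :=
      lt_of_lt_of_le hlow (mul_le_mul_of_nonneg_right hmR' hsk0.le)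
    nlinarith
  have hm0 : 0 < m := by
    rcases Nat.eq_zero_or_pos m with h0 | h0
    · rw [h0] at hm8
      norm_num at hm8
    · exact h0
  have hm0R : (0 : ℝ) < m := by exact_mod_cast hm0
  have hN4 : 1 ≤ 4 * (N : ℝ) * sk := by
    have h1 : ((n : ℝ)) * sk ≤ 2 * N * sk := mul_le_mul_of_nonneg_right hN2 hsk0.le
    nlinarith
  have hkN : k ≤ N := by
    have h1 : 8 * (k : ℝ) * sk ≤ 4 * (N : ℝ) * sk := h8k.trans hN4
    have h2 : 8 * (k : ℝ) ≤ 4 * (N : ℝ) := le_of_mul_le_mul_right h1 hsk0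
    have h3 : (k : ℝ) ≤ N := by linarith
    exact_mod_cast h3
  have hn1 : 1 ≤ n := by omega
  have hhalf : n.choose k ≤ 2 * N.choose k := by
    apply choose_half n k (2 * m) (by omega) hn1
    calc 2 * (2 * m) * k = 4 * k * m := by ring
      _ ≤ n := hmle
  set M : ℝ := ((N.choose k : ℕ) : ℝ) with hM
  have hM0 : 0 < M := by rw [hM]; exact_mod_cast Nat.choose_pos hkN
  have hhalfR : (n.choose k : ℝ) ≤ 2 * M := by rw [hM]; exact_mod_cast hhalf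
  set A : ℝ := (3 / 4 : ℝ) ^ (k * (k - 1)) with hA
  have hA0 : 0 < A := by positivity
  have hAM : A⁻¹ ≤ 32 * M * sk := by
    have h1 : 1 ≤ 32 * M * sk * A := by
      calc (1 : ℝ) ≤ 16 * ((n.choose k : ℝ) * A) * sk := hmu
        _ ≤ 16 * ((2 * M) * A) * sk := by
            apply mul_le_mul_of_nonneg_right _ hsk0.le
            apply mul_le_mul_of_nonneg_left _ (by norm_num)
            exact mul_le_mul_of_nonneg_right hhalfR hA0.le
        _ = 32 * M * sk * A := by ring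
    rw [inv_le_iff_one_le_mul₀ hA0]
    exact h1
  have hcA : 4 * (k : ℝ) ^ 2 ≤ N * st := by
    have h1 : 64 * (t : ℝ) ^ 2 * st ≤ (4 * (N : ℝ) * st) * st := by
      calc 64 * (t : ℝ) ^ 2 * st ≤ 1 := H1
        _ ≤ 4 * (N : ℝ) * sk := hN4
        _ = (4 * (N : ℝ) * st) * st := by rw [hskst]; ring
    have h2 := le_of_mul_le_mul_right h1 hst0
    have h3 : 4 * (2 * (t : ℝ)) ^ 2 = 16 * (t : ℝ) ^ 2 := by ring
    rw [hkR, h3]
    linarith
  have hcB : 2 * ((k : ℝ) * N * (3 / 4) ^ (3 * t - 1)) ≤ 1 := by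
    have e1 : (3 / 4 : ℝ) ^ (3 * t - 1) = 4 / 3 * (sk * st) := by
      have e2 : 3 * t = (3 * t - 1) + 1 := by omega
      have e3 : (3 / 4 : ℝ) ^ (3 * t) = (3 / 4 : ℝ) ^ (3 * t - 1) * (3 / 4) := by
        conv_lhs => rw [e2]
        rw [pow_succ]
      have e4 : (3 / 4 : ℝ) ^ (3 * t) = sk * st := by
        rw [hsk, hst, ← pow_add]
        congr 1
        omega
      rw [e4] at e3
      linarith
    rw [e1]
    have h1 : (N : ℝ) * sk ≤ 2 * ((k : ℝ) + 1) := by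
      refine le_trans ?_ hup
      apply mul_le_mul_of_nonneg_right _ hsk0.le
      rw [hNR]
      linarith
    have h2 : 2 * ((k : ℝ) * N * (4 / 3 * (sk * st))) = 8 / 3 * ((k : ℝ) * (N * sk) * st) := by ring
    rw [h2]
    have h3 : (k : ℝ) * (N * sk) * st ≤ (k : ℝ) * (2 * ((k : ℝ) + 1)) * st := by
      apply mul_le_mul_of_nonneg_right _ hst0.le
      exact mul_le_mul_of_nonneg_left h1 (by positivity)
    have h4 : (k : ℝ) * (2 * ((k : ℝ) + 1)) ≤ 10 * (t : ℝ) ^ 2 := by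
      rw [hkR]; nlinarith
    have h5 : (k : ℝ) * (2 * ((k : ℝ) + 1)) * st ≤ 10 * (t : ℝ) ^ 2 * st :=
      mul_le_mul_of_nonneg_right h4 hst0.le
    have h6 : 0 ≤ (t : ℝ) ^ 2 * st := by positivity
    have h7 : 64 * ((t : ℝ) ^ 2 * st) ≤ 1 := by linarith
    have h8 : (k : ℝ) * (N * sk) * st ≤ 10 * ((t : ℝ) ^ 2 * st) := by linarith
    linarith
  have hO : ∀ θ : ℝ, 1 ≤ θ → θ ≤ 2 → OS (3 / 4) k N θ ≤ 2 * M + 64 * M * (sk * θ ^ k) := by
    intro θ h1 h2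
    have h3 := OS_le (3 / 4) hs0 hs1 t k N hk hkN (by omega) θ h1 h2 hcA hcB
    have h4 : A⁻¹ * θ ^ k ≤ 32 * M * sk * θ ^ k :=
      mul_le_mul_of_nonneg_right hAM (by positivity)
    rw [← hM, ← hA] at h3
    have h5 : 2 * (32 * M * sk * θ ^ k) = 64 * M * (sk * θ ^ k) := by ring
    linarith
  refine ⟨m, N, rfl, h2m, hm0, hkN, 2 * M + 64 * M * (sk * 1 ^ k),
    2 * M + 64 * M * (sk * (4288 / 4225) ^ k), 2 * M + 64 * M * (sk * (128 / 65) ^ k),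
    hO 1 le_rfl (by norm_num), ?_, ?_, ?_⟩
  · rw [th2_val]
    exact hO _ (by norm_num) (by norm_num)
  · rw [th3_val]
    exact hO _ (by norm_num) (by norm_num)
  · have e2 : sk * (4288 / 4225) ^ k ≤ 1 := by
      rw [hsk, ← mul_pow]
      exact pow_le_one₀ (by norm_num) (by norm_num)
    have e3 : sk * (128 / 65) ^ k = (96 / 65) ^ k := by
      rw [hsk, ← mul_pow]
      norm_num
    have e3' : (1 : ℝ) ≤ (96 / 65) ^ k := one_le_pow₀ (by norm_num)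
    have e4 : sk * sk * (96 / 65) ^ k = (54 / 65) ^ k := by
      rw [hsk, ← mul_pow, ← mul_pow]
      norm_num
    have e5 : sk ≤ (54 / 65) ^ k := by
      rw [hsk]
      exact pow_le_pow_left₀ (by norm_num) (by norm_num) k
    set ρ : ℝ := (54 / 65 : ℝ) ^ k with hρ
    have hρ0 : 0 < ρ := by positivity
    set W : ℝ := (k : ℝ) ^ 2 * ρ with hW
    have hW0 : 0 < W := by positivity
    have hWle : W ≤ 1 / 10000 := H2
    have hk2 : (1 : ℝ) ≤ (k : ℝ) ^ 2 := by nlinarith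
    have f1 : sk ≤ W := by
      calc sk ≤ 1 * ρ := by linarith
        _ ≤ (k : ℝ) ^ 2 * ρ := mul_le_mul_of_nonneg_right hk2 hρ0.le
    have f2 : (k : ℝ) * sk ≤ W := by
      calc (k : ℝ) * sk ≤ (k : ℝ) * ρ := mul_le_mul_of_nonneg_left e5 (by positivity)
        _ ≤ (k : ℝ) ^ 2 * ρ := by
            apply mul_le_mul_of_nonneg_right _ hρ0.le
            nlinarith
    -- 1 ≤ 8 k m sk
    have g1 : (m : ℝ) ≤ 8 * W * m ^ 2 := by
      calc (m : ℝ) = 1 * m := by ring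
        _ ≤ (8 * (k : ℝ) * m * sk) * m := mul_le_mul_of_nonneg_right hm8 hm0R.le
        _ = 8 * ((k : ℝ) * sk) * m ^ 2 := by ring
        _ ≤ 8 * W * m ^ 2 := by
            apply mul_le_mul_of_nonneg_right _ (by positivity)
            linarith
    have g2 : (96 / 65 : ℝ) ^ k ≤ 64 * W * m ^ 2 := by
      have h1 : (1 : ℝ) ≤ (8 * (k : ℝ) * m * sk) ^ 2 := one_le_pow₀ hm8
      calc (96 / 65 : ℝ) ^ k = 1 * (96 / 65 : ℝ) ^ k := by ring
        _ ≤ (8 * (k : ℝ) * m * sk) ^ 2 * (96 / 65 : ℝ) ^ k :=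
            mul_le_mul_of_nonneg_right h1 (by positivity)
        _ = 64 * ((k : ℝ) ^ 2 * (sk * sk * (96 / 65) ^ k)) * m ^ 2 := by ring
        _ = 64 * W * m ^ 2 := by rw [e4]
    -- the inequality divided by `M`
    have main : (m : ℝ) ^ 2 * (1 - 7 / 16) ^ 2 * (2 + 64 * sk) + 2 * (m : ℝ) * (1 - 7 / 16) ^ 2 * 66 +
        (1 - 7 / 16) * (2 + 64 * (96 / 65) ^ k) ≤ 4 * (m : ℝ) ^ 2 * (1 - 7 / 16) ^ 2 := by
      have hm2 : 0 ≤ (m : ℝ) ^ 2 := by positivity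
      have i1 : (m : ℝ) ^ 2 * sk ≤ (m : ℝ) ^ 2 * W := mul_le_mul_of_nonneg_left f1 hm2
      have i2 : (m : ℝ) ^ 2 * W ≤ (m : ℝ) ^ 2 * (1 / 10000) := mul_le_mul_of_nonneg_left hWle hm2
      have i3 : 1 ≤ 64 * W * m ^ 2 := e3'.trans g2
      nlinarith
    have hmM : 0 ≤ (m : ℝ) ^ 2 * M := by positivity
    have j2 : 2 * M + 64 * M * (sk * (4288 / 4225) ^ k) ≤ 66 * M := by
      have : 64 * M * (sk * (4288 / 4225) ^ k) ≤ 64 * M * 1 :=
        mul_le_mul_of_nonneg_left e2 (by positivity)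
      linarith
    calc (m : ℝ) ^ 4 * (1 - 7 / 16) ^ 2 * (2 * M + 64 * M * (sk * 1 ^ k)) +
          2 * (m : ℝ) ^ 3 * (1 - 7 / 16) ^ 2 * (2 * M + 64 * M * (sk * (4288 / 4225) ^ k)) +
          (m : ℝ) ^ 2 * (1 - 7 / 16) * (2 * M + 64 * M * (sk * (128 / 65) ^ k))
        ≤ (m : ℝ) ^ 4 * (1 - 7 / 16) ^ 2 * (2 * M + 64 * M * (sk * 1 ^ k)) +
          2 * (m : ℝ) ^ 3 * (1 - 7 / 16) ^ 2 * (66 * M) +
          (m : ℝ) ^ 2 * (1 - 7 / 16) * (2 * M + 64 * M * (sk * (128 / 65) ^ k)) := by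
          have : 2 * (m : ℝ) ^ 3 * (1 - 7 / 16) ^ 2 * (2 * M + 64 * M * (sk * (4288 / 4225) ^ k)) ≤
              2 * (m : ℝ) ^ 3 * (1 - 7 / 16) ^ 2 * (66 * M) :=
            mul_le_mul_of_nonneg_left j2 (by positivity)
          linarith
      _ = ((m : ℝ) ^ 2 * M) * ((m : ℝ) ^ 2 * (1 - 7 / 16) ^ 2 * (2 + 64 * sk) +
          2 * (m : ℝ) * (1 - 7 / 16) ^ 2 * 66 + (1 - 7 / 16) * (2 + 64 * (96 / 65) ^ k)) := by
          rw [e3, one_pow]; ring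
      _ ≤ ((m : ℝ) ^ 2 * M) * (4 * (m : ℝ) ^ 2 * (1 - 7 / 16) ^ 2) :=
          mul_le_mul_of_nonneg_left main hmM
      _ = 4 * (m : ℝ) ^ 4 * (1 - 7 / 16) ^ 2 * M := by ring

end Run7.h198.BC
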