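import Pool.Agent.Run7.h198.BC.Final
import Pool.Agent.Run7.h198.BC.Det

set_option autoImplicit false

/-! Assembly. -/

namespace Run7.h198.BC

open Finset Pool.Agent.W166.Gnp Filter Topology

theorem Pr_disjoint {n : ℕ} (T : Finset (Sym2 (Fin n))) (hT : T ⊆ allE n) (p : ℝ) :
    Pr (allE n) p (fun S => Disjoint T S) = (1 - p) ^ T.card := by
  classical
  rw [← Ex_empty_ind T p]
  unfold Pr
  rw [Ex_marg hT]
  · apply Ex_congr
    intro S hS
    beta_reduce
    have : Disjoint T S ↔ S = ∅ := by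
      constructor
      · intro h
        rw [Finset.disjoint_iff_inter_eq_empty, inter_eq_right.mpr hS] at h
        exact h
      · rintro rfl
        exact disjoint_empty_right T
    by_cases h : S = ∅
    · rw [if_pos h, if_pos (this.mpr h)]
    · rw [if_neg h, if_neg (fun h' => h (this.mp h'))]
  · intro S _
    beta_reduce
    have : Disjoint T S ↔ Disjoint T (S ∩ T) := by
      rw [Finset.disjoint_iff_inter_eq_empty, Finset.disjoint_iff_inter_eq_empty, inter_comm S T,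
        ← inter_assoc, inter_self]
    by_cases h : Disjoint T S
    · rw [if_pos h, if_pos (this.mp h)]
    · rw [if_neg h, if_neg (fun h' => h (this.mpr h'))]

theorem C_sub {n : ℕ} (I : Finset (Fin n)) : C I ⊆ allE n := by
  intro e he
  have := ((mem_C I e).mp he).1
  simpa [allE] using this

theorem first_moment {n : ℕ} (p s : ℝ) (hs : 1 - p = s ^ 2) (h0 : 0 ≤ p) (h1 : p ≤ 1) (k : ℕ) :
    Pr (allE n) p (fun S => ∃ I ∈ powersetCard (k + 1) (univ : Finset (Fin n)), Disjoint (C I) S) ≤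
      (n.choose (k + 1) : ℝ) * s ^ ((k + 1) * k) := by
  refine (Pr_exists_le h0 h1 _ _).trans ?_
  apply le_of_eq
  have h : ∀ I ∈ powersetCard (k + 1) (univ : Finset (Fin n)),
      Pr (allE n) p (fun S => Disjoint (C I) S) = s ^ ((k + 1) * k) := by
    intro I hI
    rw [Pr_disjoint _ (C_sub I), card_C, (mem_powersetCard.mp hI).2, q_choose hs]
    congr 1
  rw [sum_congr rfl h, sum_const, card_powersetCard, card_univ, Fintype.card_fin, nsmul_eq_mul]

theorem adj_iff {n : ℕ} (S : Finset (Sym2 (Fin n))) (u v : Fin n) :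
    (SimpleGraph.fromEdgeSet (S : Set (Sym2 (Fin n)))).Adj u v ↔ s(u, v) ∈ S ∧ u ≠ v := by
  rw [SimpleGraph.fromEdgeSet_adj, mem_coe]

theorem part_of_Z {n k : ℕ} {V1 V2 W : Finset (Fin n)} (h12 : Disjoint V1 V2)
    (h1 : Disjoint V1 W) (h2 : Disjoint V2 W) (S : Finset (Sym2 (Fin n)))
    (h : ∃ i ∈ V1, ∃ j ∈ V2, ∃ I ∈ powersetCard k W, Z i j I S ≠ 0) :
    Part (SimpleGraph.fromEdgeSet (S : Set (Sym2 (Fin n)))) (n - k - 1) := by
  obtain ⟨i, hi, j, hj, I, hI, hZ⟩ := h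
  rw [mem_powersetCard] at hI
  unfold Z at hZ
  have hZ1 : Disjoint (D i j I) S := by
    by_contra hcon
    rw [if_neg hcon] at hZ
    simp at hZ
  have hZ2 : ∀ w ∈ I, (s(i, w) ∈ S ↔ s(j, w) ∈ S) := by
    intro w hw
    by_contra hcon
    apply hZ
    have : tw s(i, w) s(j, w) S = 0 := by
      unfold tw; rw [if_neg hcon]
    rw [prod_eq_zero hw this, mul_zero]
  have hij : i ≠ j := fun h => Finset.disjoint_left.mp h12 hi (h ▸ hj)
  have hiI : i ∉ I := fun h => Finset.disjoint_left.mp h1 hi (hI.1 h)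
  have hjI : j ∉ I := fun h => Finset.disjoint_left.mp h2 hj (hI.1 h)
  have := det (SimpleGraph.fromEdgeSet (S : Set (Sym2 (Fin n)))) I i j hij hiI hjI ?_ ?_ ?_
  · rw [hI.2] at this
    exact this
  · rw [adj_iff]
    rintro ⟨h, _⟩
    exact Finset.disjoint_left.mp hZ1 (mem_insert_self _ _) h
  · intro u hu v hv
    rw [adj_iff]
    rintro ⟨h, hne⟩
    apply Finset.disjoint_left.mp hZ1 _ h
    apply mem_insert_of_mem
    rw [mem_C]
    refine ⟨by simpa using hne, ?_⟩
    intro x hx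
    rcases Sym2.mem_iff.mp hx with rfl | rfl <;> assumption
  · intro w hw
    rw [adj_iff, adj_iff]
    have hiw : i ≠ w := fun h => hiI (h ▸ hw)
    have hjw : j ≠ w := fun h => hjI (h ▸ hw)
    constructor
    · rintro ⟨h, _⟩; exact ⟨(hZ2 w hw).mp h, hjw⟩
    · rintro ⟨h, _⟩; exact ⟨(hZ2 w hw).mpr h, hiw⟩

theorem clique_le {n k : ℕ} (S : Finset (Sym2 (Fin n)))
    (h : ¬ ∃ I ∈ powersetCard (k + 1) (univ : Finset (Fin n)), Disjoint (C I) S) :
    (SimpleGraph.fromEdgeSet (S : Set (Sym2 (Fin n))))ᶜ.cliqueNum ≤ k := by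
  classical
  by_contra hcon
  push Not at hcon
  apply h
  obtain ⟨T, hT⟩ := (SimpleGraph.fromEdgeSet (S : Set (Sym2 (Fin n))))ᶜ.exists_isNClique_cliqueNum
  have hcard : k + 1 ≤ T.card := by
    rw [hT.card_eq]; exact hcon
  obtain ⟨I, hIT, hIc⟩ := exists_subset_card_eq hcard
  refine ⟨I, mem_powersetCard.mpr ⟨subset_univ _, hIc⟩, ?_⟩
  rw [Finset.disjoint_left]
  intro e he heS
  induction e using Sym2.ind with
  | _ x y =>
    rw [mem_C] at he
    have hxy : x ≠ y := by simpa using he.1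
    have hx : x ∈ T := hIT (he.2 x (by simp))
    have hy : y ∈ T := hIT (he.2 y (by simp))
    have := hT.isClique (mem_coe.mpr hx) (mem_coe.mpr hy) hxy
    rw [SimpleGraph.compl_adj] at this
    apply this.2
    rw [adj_iff]
    exact ⟨heS, hxy⟩

/-- the set in the frozen statement -/
def PartSet {n : ℕ} (G : SimpleGraph (Fin n)) : Set ℕ := {k : ℕ | Part G k}

theorem step (t : ℕ) (ht : 2 ≤ t) (H1 : 64 * (t : ℝ) ^ 2 * (3 / 4) ^ t ≤ 1)
    (H2 : ((2 * t : ℕ) : ℝ) ^ 2 * (54 / 65) ^ (2 * t) ≤ 1 / 10000) :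
    ∃ n : ℕ, 1 < ((n : ℝ) + 1) * (3 / 4) ^ (2 * t) ∧
      Pr (allE n) (7 / 16) (fun S =>
        sInf (PartSet (SimpleGraph.fromEdgeSet (S : Set (Sym2 (Fin n))))) =
          n - (SimpleGraph.fromEdgeSet (S : Set (Sym2 (Fin n))))ᶜ.cliqueNum) ≤ 7 / 8 := by
  obtain ⟨n, hn, hF, m, N, hN, h2m, hm0, hkN, b1, b2, b3, hb1, hb2, hb3, hf⟩ := params t ht H1 H2
  refine ⟨n, hn, ?_⟩
  set k := 2 * t with hk
  set p : ℝ := 7 / 16 with hp
  have hp0 : 0 < p := by rw [hp]; norm_num
  have hp1 : p < 1 := by rw [hp]; norm_num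
  have hs : 1 - p = (3 / 4 : ℝ) ^ 2 := by rw [hp]; norm_num
  -- the three parts
  set V1 : Finset (Fin n) := univ.filter (fun x => x.1 < m) with hV1
  set V2 : Finset (Fin n) := univ.filter (fun x => m ≤ x.1 ∧ x.1 < 2 * m) with hV2
  set W : Finset (Fin n) := univ.filter (fun x => 2 * m ≤ x.1) with hW
  have h12 : Disjoint V1 V2 := by
    rw [Finset.disjoint_left]
    intro x hx hx'
    simp only [hV1, hV2, mem_filter, mem_univ, true_and] at hx hx'
    omega
  have h1W : Disjoint V1 W := by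
    rw [Finset.disjoint_left]
    intro x hx hx'
    simp only [hV1, hW, mem_filter, mem_univ, true_and] at hx hx'
    omega
  have h2W : Disjoint V2 W := by
    rw [Finset.disjoint_left]
    intro x hx hx'
    simp only [hV2, hW, mem_filter, mem_univ, true_and] at hx hx'
    omega
  have hcard : ∀ P : ℕ → Prop, ∀ [DecidablePred P], (univ.filter (fun x : Fin n => P x.1)).card =
      ((range n).filter P).card := by
    intro P _
    rw [← card_map Fin.valEmbedding]
    congr 1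
    ext y
    simp only [Finset.mem_map, mem_filter, mem_univ, true_and, Fin.valEmbedding_apply, mem_range]
    constructor
    · rintro ⟨x, hx, rfl⟩
      exact ⟨x.2, hx⟩
    · rintro ⟨h3, h4⟩
      exact ⟨⟨y, h3⟩, h4, rfl⟩
  have hc1 : V1.card = m := by
    rw [hV1, hcard (fun x => x < m)]
    have : (range n).filter (fun x => x < m) = range m := by
      ext y; simp only [mem_filter, mem_range]; omega
    rw [this, card_range]
  have hc2 : V2.card = m := by
    rw [hV2, hcard (fun x => m ≤ x ∧ x < 2 * m)]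
    have : (range n).filter (fun x => m ≤ x ∧ x < 2 * m) = Ico m (2 * m) := by
      ext y; simp only [mem_filter, mem_range, mem_Ico]; omega
    rw [this, Nat.card_Ico]
    omega
  have hcW : W.card = N := by
    rw [hW, hcard (fun x => 2 * m ≤ x)]
    have : (range n).filter (fun x => 2 * m ≤ x) = Ico (2 * m) n := by
      ext y; simp only [mem_filter, mem_range, mem_Ico]; omega
    rw [this, Nat.card_Ico, hN]
  have hA := pr_pos p (3 / 4) hs (by norm_num) hp0 hp1 h12 h1W h2W hc1 hc2 hcW hm0 hkN b1 b2 b3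
    hb1 hb2 hb3 hf
  have hB := first_moment (n := n) p (3 / 4) hs hp0.le hp1.le k
  have hB' := hB.trans hF
  -- combine
  set EA : Finset (Sym2 (Fin n)) → Prop := fun S =>
    ∃ i ∈ V1, ∃ j ∈ V2, ∃ I ∈ powersetCard k W, Z i j I S ≠ 0 with hEA
  set EB : Finset (Sym2 (Fin n)) → Prop := fun S =>
    ∃ I ∈ powersetCard (k + 1) (univ : Finset (Fin n)), Disjoint (C I) S with hEB
  have hAB : Pr (allE n) p EA ≤ Pr (allE n) p (fun S => EA S ∧ ¬ EB S) + Pr (allE n) p EB := by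
    refine le_trans ?_ (Pr_or_le hp0.le hp1.le _ _)
    apply Pr_mono hp0.le hp1.le
    intro S _ hS
    by_cases h : EB S
    · exact Or.inr h
    · exact Or.inl ⟨hS, h⟩
  have hgood : Pr (allE n) p (fun S =>
        sInf (PartSet (SimpleGraph.fromEdgeSet (S : Set (Sym2 (Fin n))))) =
          n - (SimpleGraph.fromEdgeSet (S : Set (Sym2 (Fin n))))ᶜ.cliqueNum) ≤
      Pr (allE n) p (fun S => ¬ (EA S ∧ ¬ EB S)) := by
    apply Pr_mono hp0.le hp1.le
    intro S _ hS hbad
    have h3 := part_of_Z h12 h1W h2W S hbad.1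
    have h4 := clique_le S hbad.2
    have h5 : sInf (PartSet (SimpleGraph.fromEdgeSet (S : Set (Sym2 (Fin n))))) ≤ n - k - 1 :=
      Nat.sInf_le h3
    rw [hS] at h5
    omega
  rw [Pr_not] at hgood
  linarith

theorem exists_t (B : ℝ) : ∃ t : ℕ, 2 ≤ t ∧ 64 * (t : ℝ) ^ 2 * (3 / 4) ^ t ≤ 1 ∧
    ((2 * t : ℕ) : ℝ) ^ 2 * (54 / 65) ^ (2 * t) ≤ 1 / 10000 ∧ B * (3 / 4) ^ (2 * t) ≤ 1 := by
  have h1 : Tendsto (fun n : ℕ => (n : ℝ) ^ 2 * (3 / 4 : ℝ) ^ n) atTop (𝓝 0) :=
    tendsto_pow_const_mul_const_pow_of_lt_one 2 (by norm_num) (by norm_num)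
  have h2 : Tendsto (fun n : ℕ => (n : ℝ) ^ 2 * (54 / 65 : ℝ) ^ n) atTop (𝓝 0) :=
    tendsto_pow_const_mul_const_pow_of_lt_one 2 (by norm_num) (by norm_num)
  have h3 : Tendsto (fun n : ℕ => (3 / 4 : ℝ) ^ n) atTop (𝓝 0) :=
    tendsto_pow_atTop_nhds_zero_of_lt_one (by norm_num) (by norm_num)
  have hdbl : Tendsto (fun t : ℕ => 2 * t) atTop atTop :=
    tendsto_id.const_mul_atTop' (by norm_num)
  have h2' := h2.comp hdbl
  have h3' := h3.comp hdbl
  have e1 := h1.eventually (gt_mem_nhds (show (0 : ℝ) < 1 / 64 by norm_num))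
  have e2 := h2'.eventually (gt_mem_nhds (show (0 : ℝ) < 1 / 10000 by norm_num))
  have hB : (0 : ℝ) < 1 / (|B| + 1) := by positivity
  have e3 := h3'.eventually (gt_mem_nhds hB)
  obtain ⟨t, ht2, ht1, ht3, ht4⟩ := ((eventually_ge_atTop 2).and (e1.and (e2.and e3))).exists
  refine ⟨t, ht2, ?_, ?_, ?_⟩
  · linarith
  · exact ht3.le
  · have h5 : (3 / 4 : ℝ) ^ (2 * t) < 1 / (|B| + 1) := ht4
    have h6 : 0 < (3 / 4 : ℝ) ^ (2 * t) := by positivity
    have h7 : (3 / 4 : ℝ) ^ (2 * t) * (|B| + 1) < 1 := by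
      rwa [lt_div_iff₀ (by positivity)] at h5
    have h8 : B ≤ |B| + 1 := by linarith [le_abs_self B]
    calc B * (3 / 4) ^ (2 * t) ≤ (|B| + 1) * (3 / 4) ^ (2 * t) :=
          mul_le_mul_of_nonneg_right h8 h6.le
      _ ≤ 1 := by linarith

end Run7.h198.BC
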