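import Pool.Agent.Run7.h198.BC.Prob

set_option autoImplicit false

/-! The second moment of the number of pairs of twins over an independent set. -/

namespace Run7.h198.BC

open Finset Pool.Agent.W166.Gnp

theorem card_super {β : Type} [DecidableEq β] (W L : Finset β) (hL : L ⊆ W) (k : ℕ) :
    ((powersetCard k W).filter (fun J => L ⊆ J)).card ≤ (W.card - L.card).choose (k - L.card) := by
  rw [← card_sdiff_of_subset hL, ← card_powersetCard]
  apply card_le_card_of_injOn (fun J => J \ L)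
  · intro J hJ
    rw [mem_coe, mem_filter, mem_powersetCard] at hJ
    rw [mem_coe, mem_powersetCard]
    refine ⟨sdiff_subset_sdiff hJ.1.1 subset_rfl, ?_⟩
    rw [card_sdiff_of_subset hJ.2, hJ.1.2]
  · intro J hJ J' hJ' h
    rw [mem_coe, mem_filter, mem_powersetCard] at hJ hJ'
    beta_reduce at h
    rw [← sdiff_union_of_subset hJ.2, ← sdiff_union_of_subset hJ'.2, h]

theorem sum_overlap {β : Type} [DecidableEq β] (W I : Finset β) (k : ℕ)
    (hI : I ∈ powersetCard k W) (g : ℕ → ℝ) (hg : ∀ l, 0 ≤ g l) :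
    ∑ J ∈ powersetCard k W, g (I ∩ J).card ≤
      ∑ l ∈ range (k + 1), (k.choose l : ℝ) * ((W.card - l).choose (k - l) : ℕ) * g l := by
  rw [mem_powersetCard] at hI
  calc ∑ J ∈ powersetCard k W, g (I ∩ J).card
      ≤ ∑ J ∈ powersetCard k W, ∑ L ∈ I.powerset, (if L ⊆ J then g L.card else 0) := by
        apply sum_le_sum
        intro J _
        have h : g (I ∩ J).card = (if I ∩ J ⊆ J then g (I ∩ J).card else 0) := by
          rw [if_pos inter_subset_right]
        rw [h]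
        apply single_le_sum (f := fun L => if L ⊆ J then g L.card else 0)
        · intro L _
          split_ifs
          · exact hg _
          · exact le_refl _
        · exact mem_powerset.mpr inter_subset_left
    _ = ∑ L ∈ I.powerset, ∑ J ∈ powersetCard k W, (if L ⊆ J then g L.card else 0) := sum_comm
    _ ≤ ∑ L ∈ I.powerset, ((W.card - L.card).choose (k - L.card) : ℕ) * g L.card := by
        apply sum_le_sum
        intro L hL
        rw [← sum_filter, sum_const, nsmul_eq_mul]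
        apply mul_le_mul_of_nonneg_right _ (hg _)
        exact_mod_cast card_super W L ((mem_powerset.mp hL).trans hI.1) k
    _ = ∑ l ∈ range (k + 1), (k.choose l : ℝ) * ((W.card - l).choose (k - l) : ℕ) * g l := by
        rw [sum_powerset_apply_card
          (f := fun l => (((W.card - l).choose (k - l) : ℕ) : ℝ) * g l), hI.2]
        apply sum_congr rfl
        intro l _
        rw [nsmul_eq_mul]
        ring

section

variable {n : ℕ}

/-- the overlap sum -/
noncomputable def OS (s : ℝ) (k N : ℕ) (θ : ℝ) : ℝ :=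
  ∑ l ∈ range (k + 1), (k.choose l : ℝ) * ((N - l).choose (k - l) : ℕ) *
    ((s ^ (l * (l - 1)))⁻¹ * θ ^ l)

theorem q_choose {p s : ℝ} (hs : 1 - p = s ^ 2) (l : ℕ) :
    (1 - p) ^ (l.choose 2) = s ^ (l * (l - 1)) := by
  rw [hs, ← pow_mul]
  congr 1
  rw [Nat.choose_two_right, Nat.mul_div_cancel']
  exact (Nat.even_mul_pred_self l).two_dvd

theorem ZZ_bound (p s : ℝ) (hs : 1 - p = s ^ 2) (hs0 : 0 < s)
    {V1 V2 W : Finset (Fin n)} (h12 : Disjoint V1 V2)
    (h1 : Disjoint V1 W) (h2 : Disjoint V2 W) {i i' j j' : Fin n}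
    (hi : i ∈ V1) (hi' : i' ∈ V1) (hj : j ∈ V2) (hj' : j' ∈ V2) {I J : Finset (Fin n)} {k : ℕ}
    (hI : I ∈ powersetCard k W) (hJ : J ∈ powersetCard k W) :
    Ex (allE n) p (fun S => Z i j I S * Z i' j' J S) =
      (1 - p) ^ (({s(i, j), s(i', j')} : Finset (Sym2 (Fin n))).card) *
      (s ^ (k * (k - 1)) * PP p ^ k) ^ 2 *
      ((s ^ ((I ∩ J).card * ((I ∩ J).card - 1)))⁻¹ * th p i j i' j' ^ (I ∩ J).card) := by
  rw [mem_powersetCard] at hI hJ
  rw [Ex_ZZ' p h12 h1 h2 hi hi' hj hj' hI.1 hJ.1, hI.2, hJ.2]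
  have hc : (C I ∪ C J).card + ((I ∩ J).card.choose 2) = k.choose 2 + k.choose 2 := by
    have := card_union_add_card_inter (C I) (C J)
    rw [C_inter, card_C, card_C, card_C, hI.2, hJ.2] at this
    exact this
  have hq : (1 - p) ^ (C I ∪ C J).card * s ^ ((I ∩ J).card * ((I ∩ J).card - 1)) =
      s ^ (k * (k - 1)) * s ^ (k * (k - 1)) := by
    rw [← q_choose hs, ← q_choose hs, ← pow_add, ← pow_add, hc]
  have hpos : 0 < s ^ ((I ∩ J).card * ((I ∩ J).card - 1)) := pow_pos hs0 _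
  have hq2 : (1 - p) ^ (C I ∪ C J).card =
      s ^ (k * (k - 1)) * s ^ (k * (k - 1)) * (s ^ ((I ∩ J).card * ((I ∩ J).card - 1)))⁻¹ := by
    rw [← hq]
    field_simp
  rw [pow_add, hq2]
  ring

theorem Z_single (p s : ℝ) (hs : 1 - p = s ^ 2) (hs0 : 0 < s)
    {V1 V2 W : Finset (Fin n)} (h12 : Disjoint V1 V2)
    (h1 : Disjoint V1 W) (h2 : Disjoint V2 W) {i j : Fin n}
    (hi : i ∈ V1) (hj : j ∈ V2) {I : Finset (Fin n)} {k : ℕ}
    (hI : I ∈ powersetCard k W) :
    Ex (allE n) p (fun S => Z i j I S) = (1 - p) * (s ^ (k * (k - 1)) * PP p ^ k) := by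
  have h := ZZ_bound p s hs hs0 h12 h1 h2 hi hi hj hj hI hI
  have h' : Ex (allE n) p (fun S => Z i j I S) = Ex (allE n) p (fun S => Z i j I S * Z i j I S) := by
    apply Ex_congr
    intro S _
    rw [Z_sq]
  rw [h', h]
  have hk : (I ∩ I).card = k := by
    rw [inter_self]; exact (mem_powersetCard.mp hI).2
  have hc : ({s(i, j), s(i, j)} : Finset (Sym2 (Fin n))).card = 1 := by simp
  have hpos : 0 < s ^ (k * (k - 1)) := pow_pos hs0 _
  have hP := PP_pos p
  rw [hk, hc]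
  simp only [th, if_true]
  rw [one_div, inv_pow]
  field_simp

theorem pair_card {V1 V2 : Finset (Fin n)} (h12 : Disjoint V1 V2) {i i' j j' : Fin n}
    (hi : i ∈ V1) (hj' : j' ∈ V2) :
    ({s(i, j), s(i', j')} : Finset (Sym2 (Fin n))).card = if (i = i' ∧ j = j') then 1 else 2 := by
  by_cases h : i = i' ∧ j = j'
  · rw [if_pos h, h.1, h.2]; simp
  · rw [if_neg h, card_pair]
    intro h2
    rw [Sym2.eq_iff] at h2
    rcases h2 with h2 | h2
    · exact h h2
    · apply Finset.disjoint_left.mp h12 hi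
      rw [h2.1]
      exact hj'

theorem Ex_CS {α : Type} (E : Finset α) {p : ℝ} (h0 : 0 ≤ p)
    (h1 : p ≤ 1) (f : Finset α → ℝ) :
    (Ex E p f) ^ 2 ≤ Ex E p (fun S => f S ^ 2) * Pr E p (fun S => f S ≠ 0) := by
  classical
  unfold Pr Ex
  apply Finset.sum_sq_le_sum_mul_sum_of_sq_le_mul
  · intro S _
    exact mul_nonneg (mul_nonneg (pow_nonneg h0 _) (pow_nonneg (by linarith) _)) (sq_nonneg _)
  · intro S _
    apply mul_nonneg (mul_nonneg (pow_nonneg h0 _) (pow_nonneg (by linarith) _))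
    beta_reduce
    split_ifs <;> norm_num
  · intro S _
    beta_reduce
    apply le_of_eq
    by_cases h : f S ≠ 0
    · rw [if_pos h]; ring
    · rw [if_neg h]
      push Not at h
      rw [h]; ring

theorem OS_nonneg {s : ℝ} (hs0 : 0 < s) (k N : ℕ) {θ : ℝ} (hθ : 0 ≤ θ) : 0 ≤ OS s k N θ := by
  unfold OS
  apply Finset.sum_nonneg
  intro l _
  positivity

theorem sum_pairs_le {V1 V2 : Finset (Fin n)} {m : ℕ} (hm1 : V1.card = m) (hm2 : V2.card = m)
    (H0 H1 H2 H3 : ℝ) :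
    ∑ a ∈ V1 ×ˢ V2, ∑ b ∈ V1 ×ˢ V2, (H0 + (if a.1 = b.1 then H1 else 0) +
      (if a.2 = b.2 then H2 else 0) + (if a = b then H3 else 0)) =
      (m : ℝ) ^ 4 * H0 + (m : ℝ) ^ 3 * H1 + (m : ℝ) ^ 3 * H2 + (m : ℝ) ^ 2 * H3 := by
  have e1 : ∀ a ∈ V1 ×ˢ V2, ∑ b ∈ V1 ×ˢ V2, (H0 + (if a.1 = b.1 then H1 else 0) +
      (if a.2 = b.2 then H2 else 0) + (if a = b then H3 else 0)) =
      (m : ℝ) ^ 2 * H0 + (m : ℝ) * H1 + (m : ℝ) * H2 + H3 := by
    intro a ha
    rw [sum_add_distrib, sum_add_distrib, sum_add_distrib, sum_ite_eq, if_pos ha]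
    have h1 : ∑ b ∈ V1 ×ˢ V2, (if a.1 = b.1 then H1 else 0) = m * H1 := by
      rw [sum_product]
      have : ∀ x ∈ V1, ∑ y ∈ V2, (if a.1 = x then H1 else 0) = if a.1 = x then m * H1 else 0 := by
        intro x _
        rw [sum_const, hm2, nsmul_eq_mul]
        split_ifs <;> simp
      rw [sum_congr rfl this, sum_ite_eq, if_pos (mem_product.mp ha).1]
    have h2 : ∑ b ∈ V1 ×ˢ V2, (if a.2 = b.2 then H2 else 0) = m * H2 := by
      rw [sum_product]
      have : ∀ x ∈ V1, ∑ y ∈ V2, (if a.2 = y then H2 else 0) = H2 := by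
        intro x _
        rw [sum_ite_eq, if_pos (mem_product.mp ha).2]
      rw [sum_congr rfl this, sum_const, hm1, nsmul_eq_mul]
    rw [h1, h2, sum_const, card_product, hm1, hm2, nsmul_eq_mul]
    push_cast
    ring
  rw [sum_congr rfl e1, sum_const, card_product, hm1, hm2, nsmul_eq_mul]
  push_cast
  ring

theorem pr_pos (p s : ℝ) (hs : 1 - p = s ^ 2) (hs0 : 0 < s) (hp0 : 0 < p) (hp1 : p < 1)
    {V1 V2 W : Finset (Fin n)} (h12 : Disjoint V1 V2)
    (h1 : Disjoint V1 W) (h2 : Disjoint V2 W) {m N k : ℕ} (hm1 : V1.card = m)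
    (hm2 : V2.card = m) (hW : W.card = N) (hm : 0 < m) (hkN : k ≤ N)
    (b1 b2 b3 : ℝ) (hb1 : OS s k N 1 ≤ b1) (hb2 : OS s k N (RR p / PP p ^ 2) ≤ b2)
    (hb3 : OS s k N (1 / PP p) ≤ b3)
    (hf : (m : ℝ) ^ 4 * (1 - p) ^ 2 * b1 + 2 * (m : ℝ) ^ 3 * (1 - p) ^ 2 * b2 +
      (m : ℝ) ^ 2 * (1 - p) * b3 ≤ 4 * (m : ℝ) ^ 4 * (1 - p) ^ 2 * (N.choose k : ℕ)) :
    1 / 4 ≤ Pr (allE n) p (fun S => ∃ i ∈ V1, ∃ j ∈ V2, ∃ I ∈ powersetCard k W,
      Z i j I S ≠ 0) := by
  classical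
  have hq0 : 0 < 1 - p := by linarith
  have hP := PP_pos p
  have hR : 0 < RR p := by unfold RR; positivity
  set M : ℝ := ((N.choose k : ℕ) : ℝ) with hM
  have hMpos : 0 < M := by
    rw [hM]; exact_mod_cast Nat.choose_pos hkN
  set K : ℝ := s ^ (k * (k - 1)) * PP p ^ k with hK
  have hKpos : 0 < K := by positivity
  set Y : Finset (Sym2 (Fin n)) → ℝ := fun S =>
    ∑ a ∈ V1 ×ˢ V2, ∑ I ∈ powersetCard k W, Z a.1 a.2 I S with hY
  have hfirst : Ex (allE n) p Y = (m : ℝ) ^ 2 * M * ((1 - p) * K) := by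
    rw [hY, Ex_sum]
    have : ∀ a ∈ V1 ×ˢ V2, Ex (allE n) p (fun S => ∑ I ∈ powersetCard k W, Z a.1 a.2 I S) =
        M * ((1 - p) * K) := by
      intro a ha
      rw [mem_product] at ha
      rw [Ex_sum]
      rw [sum_congr rfl (fun I hI => Z_single p s hs hs0 h12 h1 h2 ha.1 ha.2 hI), sum_const,
        card_powersetCard, hW, nsmul_eq_mul]
    rw [sum_congr rfl this, sum_const, card_product, hm1, hm2, nsmul_eq_mul]
    push_cast
    ring
  -- second moment
  have hinner : ∀ a ∈ V1 ×ˢ V2, ∀ b ∈ V1 ×ˢ V2,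
      ∑ I ∈ powersetCard k W, ∑ J ∈ powersetCard k W,
        Ex (allE n) p (fun S => Z a.1 a.2 I S * Z b.1 b.2 J S) ≤
      K ^ 2 * M * ((1 - p) ^ 2 * b1 + (if a.1 = b.1 then (1 - p) ^ 2 * b2 else 0) +
      (if a.2 = b.2 then (1 - p) ^ 2 * b2 else 0) + (if a = b then (1 - p) * b3 else 0)) := by
    intro a ha b hb
    rw [mem_product] at ha hb
    have hθ : 0 ≤ th p a.1 a.2 b.1 b.2 := by
      unfold th
      split_ifs <;> positivity
    have hJ : ∀ I ∈ powersetCard k W, ∑ J ∈ powersetCard k W,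
        Ex (allE n) p (fun S => Z a.1 a.2 I S * Z b.1 b.2 J S) ≤
        (1 - p) ^ (({s(a.1, a.2), s(b.1, b.2)} : Finset (Sym2 (Fin n))).card) * K ^ 2 *
          OS s k N (th p a.1 a.2 b.1 b.2) := by
      intro I hI
      rw [sum_congr rfl (fun J hJ => ZZ_bound p s hs hs0 h12 h1 h2 ha.1 hb.1 ha.2 hb.2 hI hJ),
        ← mul_sum]
      apply mul_le_mul_of_nonneg_left _ (by positivity)
      have := sum_overlap W I k hI
        (fun l => (s ^ (l * (l - 1)))⁻¹ * th p a.1 a.2 b.1 b.2 ^ l) (fun l => by positivity)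
      rw [hW] at this
      exact this
    refine (sum_le_sum hJ).trans ?_
    rw [sum_const, card_powersetCard, hW, nsmul_eq_mul, ← hM]
    have hOS := OS_nonneg hs0 k N hθ
    have hb10 : 0 ≤ b1 := (OS_nonneg hs0 k N (by norm_num)).trans hb1
    have hb20 : 0 ≤ b2 := (OS_nonneg hs0 k N (by positivity)).trans hb2
    have hb30 : 0 ≤ b3 := (OS_nonneg hs0 k N (by positivity)).trans hb3
    have hmain : (1 - p) ^ (({s(a.1, a.2), s(b.1, b.2)} : Finset (Sym2 (Fin n))).card) *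
        OS s k N (th p a.1 a.2 b.1 b.2) ≤
        ((1 - p) ^ 2 * b1 + (if a.1 = b.1 then (1 - p) ^ 2 * b2 else 0) +
      (if a.2 = b.2 then (1 - p) ^ 2 * b2 else 0) + (if a = b then (1 - p) * b3 else 0)) := by
      rw [pair_card h12 ha.1 hb.2]
      by_cases ha1 : a.1 = b.1
      · by_cases ha2 : a.2 = b.2
        · have hab : a = b := Prod.ext ha1 ha2
          rw [if_pos ⟨ha1, ha2⟩, if_pos ha1, if_pos ha2, if_pos hab]
          simp only [th, if_pos ha1, if_pos ha2]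
          have : (1 - p) ^ 1 * OS s k N (1 / PP p) ≤ (1 - p) * b3 := by
            rw [pow_one]
            exact mul_le_mul_of_nonneg_left hb3 hq0.le
          have h3 : 0 ≤ (1 - p) ^ 2 * b1 := by positivity
          have h4 : 0 ≤ (1 - p) ^ 2 * b2 := by positivity
          linarith
        · rw [if_neg (fun h => ha2 h.2), if_pos ha1, if_neg ha2, if_neg (fun h => ha2 (by rw [h]))]
          simp only [th, if_pos ha1, if_neg ha2]
          have : (1 - p) ^ 2 * OS s k N (RR p / PP p ^ 2) ≤ (1 - p) ^ 2 * b2 :=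
            mul_le_mul_of_nonneg_left hb2 (by positivity)
          have h3 : 0 ≤ (1 - p) ^ 2 * b1 := by positivity
          linarith
      · by_cases ha2 : a.2 = b.2
        · rw [if_neg (fun h => ha1 h.1), if_neg ha1, if_pos ha2, if_neg (fun h => ha1 (by rw [h]))]
          simp only [th, if_neg ha1, if_pos ha2]
          have : (1 - p) ^ 2 * OS s k N (RR p / PP p ^ 2) ≤ (1 - p) ^ 2 * b2 :=
            mul_le_mul_of_nonneg_left hb2 (by positivity)
          have h3 : 0 ≤ (1 - p) ^ 2 * b1 := by positivity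
          linarith
        · rw [if_neg (fun h => ha1 h.1), if_neg ha1, if_neg ha2, if_neg (fun h => ha1 (by rw [h]))]
          simp only [th, if_neg ha1, if_neg ha2]
          have : (1 - p) ^ 2 * OS s k N 1 ≤ (1 - p) ^ 2 * b1 :=
            mul_le_mul_of_nonneg_left hb1 (by positivity)
          linarith
    calc M * ((1 - p) ^ (({s(a.1, a.2), s(b.1, b.2)} : Finset (Sym2 (Fin n))).card) * K ^ 2 *
          OS s k N (th p a.1 a.2 b.1 b.2))
        = K ^ 2 * M * ((1 - p) ^ (({s(a.1, a.2), s(b.1, b.2)} : Finset (Sym2 (Fin n))).card) *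
          OS s k N (th p a.1 a.2 b.1 b.2)) := by ring
      _ ≤ _ := mul_le_mul_of_nonneg_left hmain (by positivity)
  have hsecond : Ex (allE n) p (fun S => Y S ^ 2) ≤ 4 * (Ex (allE n) p Y) ^ 2 := by
    have hexp : ∀ S, Y S ^ 2 = ∑ a ∈ V1 ×ˢ V2, ∑ b ∈ V1 ×ˢ V2, ∑ I ∈ powersetCard k W,
        ∑ J ∈ powersetCard k W, Z a.1 a.2 I S * Z b.1 b.2 J S := by
      intro S
      rw [hY, sq, sum_mul_sum]
      apply sum_congr rfl
      intro a _
      apply sum_congr rfl
      intro b _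
      rw [sum_mul_sum]
    rw [Ex_congr (fun S _ => hexp S), Ex_sum]
    have h3 : ∀ a ∈ V1 ×ˢ V2, Ex (allE n) p (fun S => ∑ b ∈ V1 ×ˢ V2, ∑ I ∈ powersetCard k W,
        ∑ J ∈ powersetCard k W, Z a.1 a.2 I S * Z b.1 b.2 J S) =
        ∑ b ∈ V1 ×ˢ V2, ∑ I ∈ powersetCard k W, ∑ J ∈ powersetCard k W,
          Ex (allE n) p (fun S => Z a.1 a.2 I S * Z b.1 b.2 J S) := by
      intro a _
      rw [Ex_sum]
      apply sum_congr rfl
      intro b _
      rw [Ex_sum]
      apply sum_congr rfl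
      intro I _
      rw [Ex_sum]
    rw [sum_congr rfl h3]
    calc ∑ a ∈ V1 ×ˢ V2, ∑ b ∈ V1 ×ˢ V2, ∑ I ∈ powersetCard k W, ∑ J ∈ powersetCard k W,
          Ex (allE n) p (fun S => Z a.1 a.2 I S * Z b.1 b.2 J S)
        ≤ ∑ a ∈ V1 ×ˢ V2, ∑ b ∈ V1 ×ˢ V2, K ^ 2 * M * ((1 - p) ^ 2 * b1 +
          (if a.1 = b.1 then (1 - p) ^ 2 * b2 else 0) +
          (if a.2 = b.2 then (1 - p) ^ 2 * b2 else 0) + (if a = b then (1 - p) * b3 else 0)) :=
          sum_le_sum fun a ha => sum_le_sum fun b hb => hinner a ha b hb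
      _ = K ^ 2 * M * ∑ a ∈ V1 ×ˢ V2, ∑ b ∈ V1 ×ˢ V2, ((1 - p) ^ 2 * b1 +
          (if a.1 = b.1 then (1 - p) ^ 2 * b2 else 0) +
          (if a.2 = b.2 then (1 - p) ^ 2 * b2 else 0) + (if a = b then (1 - p) * b3 else 0)) := by
          rw [mul_sum]
          exact sum_congr rfl fun a _ => by rw [mul_sum]
      _ = K ^ 2 * M * ((m : ℝ) ^ 4 * ((1 - p) ^ 2 * b1) + (m : ℝ) ^ 3 * ((1 - p) ^ 2 * b2) +
          (m : ℝ) ^ 3 * ((1 - p) ^ 2 * b2) + (m : ℝ) ^ 2 * ((1 - p) * b3)) := by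
          rw [sum_pairs_le hm1 hm2]
      _ ≤ K ^ 2 * M * (4 * (m : ℝ) ^ 4 * (1 - p) ^ 2 * M) := by
          apply mul_le_mul_of_nonneg_left _ (by positivity)
          linarith
      _ = 4 * (Ex (allE n) p Y) ^ 2 := by
          rw [hfirst]
          ring
  have hEpos : 0 < Ex (allE n) p Y := by
    rw [hfirst]
    have : (0 : ℝ) < m := by exact_mod_cast hm
    positivity
  have hcs := Ex_CS (allE n) hp0.le hp1.le Y
  have hPr : Pr (allE n) p (fun S => Y S ≠ 0) ≤
      Pr (allE n) p (fun S => ∃ i ∈ V1, ∃ j ∈ V2, ∃ I ∈ powersetCard k W, Z i j I S ≠ 0) := by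
    apply Pr_mono hp0.le hp1.le
    intro S _ hS
    by_contra hcon
    push Not at hcon
    apply hS
    rw [hY]
    apply sum_eq_zero
    intro a ha
    apply sum_eq_zero
    intro I hI
    exact hcon a.1 (mem_product.mp ha).1 a.2 (mem_product.mp ha).2 I hI
  refine le_trans ?_ hPr
  have hPr0 := Pr_nonneg (E := allE n) hp0.le hp1.le (fun S => Y S ≠ 0)
  have h4 : (Ex (allE n) p Y) ^ 2 ≤ 4 * (Ex (allE n) p Y) ^ 2 * Pr (allE n) p (fun S => Y S ≠ 0) :=
    hcs.trans (mul_le_mul_of_nonneg_right hsecond hPr0)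
  have h5 : 0 < (Ex (allE n) p Y) ^ 2 := by positivity
  by_contra h6
  push Not at h6
  nlinarith

end

end Run7.h198.BC
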