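import Pool.Agent.Run7.h198.BC.Moment

set_option autoImplicit false

/-! The overlap sum. -/

namespace Run7.h198.BC

open Finset

theorem choose_shift (N k l : ℕ) (hl : l ≤ k) (hk : k ≤ N) :
    ((N - l).choose (k - l)) * N ^ l ≤ N.choose k * k ^ l := by
  induction l with
  | zero => simp
  | succ l ih =>
    have ih' := ih (by omega)
    have hpos : 0 < N - l := by omega
    -- (N-l) * C(N-l-1, k-l-1) = (k-l) * C(N-l,k-l)
    have hrec : (N - l) * (N - (l + 1)).choose (k - (l + 1)) = (N - l).choose (k - l) * (k - l) := by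
      obtain ⟨a, ha⟩ : ∃ a, N - l = a + 1 := ⟨N - l - 1, by omega⟩
      obtain ⟨b, hb⟩ : ∃ b, k - l = b + 1 := ⟨k - l - 1, by omega⟩
      have ha' : N - (l + 1) = a := by omega
      have hb' : k - (l + 1) = b := by omega
      rw [ha, hb, ha', hb']
      exact Nat.add_one_mul_choose_eq a b
    have hkey : N * (k - l) ≤ (N - l) * k := by
      rw [Nat.mul_sub, Nat.sub_mul]
      have : l * k ≤ N * l := by
        rw [mul_comm]
        exact Nat.mul_le_mul_right l hk
      omega
    have hm : (N - l) * ((N - (l + 1)).choose (k - (l + 1)) * N ^ (l + 1)) ≤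
        (N - l) * (N.choose k * k ^ (l + 1)) := by
      calc (N - l) * ((N - (l + 1)).choose (k - (l + 1)) * N ^ (l + 1))
          = ((N - l) * (N - (l + 1)).choose (k - (l + 1))) * N ^ (l + 1) := by ring
        _ = ((N - l).choose (k - l) * N ^ l) * (N * (k - l)) := by rw [hrec]; ring
        _ ≤ (N.choose k * k ^ l) * ((N - l) * k) := Nat.mul_le_mul ih' hkey
        _ = (N - l) * (N.choose k * k ^ (l + 1)) := by ring
    exact Nat.le_of_mul_le_mul_left hm hpos

theorem choose_le_pow' (a b : ℕ) : a.choose b ≤ a ^ b := Nat.choose_le_pow a b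

theorem OS_le (s : ℝ) (hs0 : 0 < s) (hs1 : s < 1) (t k N : ℕ) (hk : k = 2 * t) (hkN : k ≤ N)
    (ht : 0 < t) (θ : ℝ) (h1 : 1 ≤ θ) (h2 : θ ≤ 2) (hA : 4 * (k : ℝ) ^ 2 ≤ N * s ^ t)
    (hB : 2 * ((k : ℝ) * N * s ^ (3 * t - 1)) ≤ 1) :
    OS s k N θ ≤ 2 * (N.choose k : ℕ) + 2 * ((s ^ (k * (k - 1)))⁻¹ * θ ^ k) := by
  have hθ0 : 0 < θ := by linarith
  have hN0 : (0 : ℝ) < N := by
    have : 0 < N := by omega
    exact_mod_cast this
  have hk0 : (0 : ℝ) < k := by
    have : 0 < k := by omega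
    exact_mod_cast this
  set M : ℝ := ((N.choose k : ℕ) : ℝ) with hM
  have hM0 : 0 ≤ M := by positivity
  set L : ℝ := (s ^ (k * (k - 1)))⁻¹ * θ ^ k with hL
  have hL0 : 0 ≤ L := by positivity
  have hterm : ∀ l ∈ range (k + 1), (k.choose l : ℝ) * ((N - l).choose (k - l) : ℕ) *
      ((s ^ (l * (l - 1)))⁻¹ * θ ^ l) ≤ M * (1 / 2) ^ l + L * (1 / 2) ^ (k - l) := by
    intro l hl
    have hlk : l ≤ k := by
      have := mem_range.mp hl
      omega
    by_cases hlt : l ≤ t
    · have hbd : (k.choose l : ℝ) * ((N - l).choose (k - l) : ℕ) *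
          ((s ^ (l * (l - 1)))⁻¹ * θ ^ l) ≤ M * (1 / 2) ^ l := by
        have e1 : (k.choose l : ℝ) ≤ (k : ℝ) ^ l := by exact_mod_cast choose_le_pow' k l
        have e2 : (((N - l).choose (k - l) : ℕ) : ℝ) ≤ M * (k : ℝ) ^ l / (N : ℝ) ^ l := by
          rw [le_div_iff₀ (by positivity), hM]
          exact_mod_cast choose_shift N k l hlk hkN
        have e3 : (s ^ (l * (l - 1)))⁻¹ ≤ ((s ^ t) ^ l)⁻¹ := by
          apply inv_anti₀ (by positivity)
          rw [← pow_mul]
          apply pow_le_pow_of_le_one hs0.le hs1.le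
          rw [mul_comm t l]
          exact Nat.mul_le_mul_left l (by omega)
        have e4 : θ ^ l ≤ 2 ^ l := pow_le_pow_left₀ hθ0.le h2 l
        have e5 : (k : ℝ) ^ l * (M * (k : ℝ) ^ l / (N : ℝ) ^ l) * (((s ^ t) ^ l)⁻¹ * 2 ^ l) =
            M * (2 * (k : ℝ) ^ 2 / (N * s ^ t)) ^ l := by
          have e7 : ((k : ℝ) ^ 2) ^ l = (k : ℝ) ^ l * (k : ℝ) ^ l := by
            rw [← mul_pow, sq]
          rw [div_pow, mul_pow, mul_pow, e7]
          field_simp
        have e6 : 2 * (k : ℝ) ^ 2 / (N * s ^ t) ≤ 1 / 2 := by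
          rw [div_le_iff₀ (by positivity)]
          linarith
        calc (k.choose l : ℝ) * ((N - l).choose (k - l) : ℕ) * ((s ^ (l * (l - 1)))⁻¹ * θ ^ l)
            ≤ (k : ℝ) ^ l * (M * (k : ℝ) ^ l / (N : ℝ) ^ l) * (((s ^ t) ^ l)⁻¹ * 2 ^ l) := by
              apply mul_le_mul (mul_le_mul e1 e2 (by positivity) (by positivity))
                (mul_le_mul e3 e4 (by positivity) (by positivity)) (by positivity) (by positivity)
          _ = M * (2 * (k : ℝ) ^ 2 / (N * s ^ t)) ^ l := e5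
          _ ≤ M * (1 / 2) ^ l := by
              apply mul_le_mul_of_nonneg_left _ hM0
              exact pow_le_pow_left₀ (by positivity) e6 l
      have : 0 ≤ L * (1 / 2) ^ (k - l) := by positivity
      linarith
    · push Not at hlt
      obtain ⟨j, hj⟩ : ∃ j, k = l + j := ⟨k - l, by omega⟩
      have hjt : j < t := by omega
      have hkl : k - l = j := by omega
      have hbd : (k.choose l : ℝ) * ((N - l).choose (k - l) : ℕ) *
          ((s ^ (l * (l - 1)))⁻¹ * θ ^ l) ≤ L * (1 / 2) ^ j := by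
        have e1 : (k.choose l : ℝ) ≤ (k : ℝ) ^ j := by
          rw [← Nat.choose_symm hlk, hkl]
          exact_mod_cast choose_le_pow' k j
        have e2 : (((N - l).choose (k - l) : ℕ) : ℝ) ≤ (N : ℝ) ^ j := by
          rw [hkl]
          calc (((N - l).choose j : ℕ) : ℝ) ≤ (((N - l) ^ j : ℕ) : ℝ) := by
                exact_mod_cast choose_le_pow' (N - l) j
            _ ≤ (N : ℝ) ^ j := by
                push_cast
                apply pow_le_pow_left₀ (by positivity)
                exact_mod_cast Nat.sub_le N l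
        have e3 : (s ^ (l * (l - 1)))⁻¹ ≤ (s ^ (k * (k - 1)))⁻¹ * (s ^ (3 * t - 1)) ^ j := by
          have hexp : l * (l - 1) + (3 * t - 1) * j ≤ k * (k - 1) := by
            obtain ⟨l', rfl⟩ : ∃ l', l = l' + 1 := ⟨l - 1, by omega⟩
            have h3 : k - 1 = l' + j := by omega
            rw [h3, hj]
            have h4 : l' + 1 - 1 = l' := by omega
            rw [h4]
            have h5 : (3 * t - 1) * j ≤ (2 * l' + 1 + j) * j := Nat.mul_le_mul_right j (by omega)
            calc (l' + 1) * l' + (3 * t - 1) * j ≤ (l' + 1) * l' + (2 * l' + 1 + j) * j := by omega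
              _ = (l' + 1 + j) * (l' + j) := by ring
          have h6 : s ^ (k * (k - 1)) ≤ s ^ (l * (l - 1)) * (s ^ (3 * t - 1)) ^ j := by
            rw [← pow_mul, ← pow_add]
            exact pow_le_pow_of_le_one hs0.le hs1.le hexp
          have h7 : 0 < s ^ (k * (k - 1)) := by positivity
          have h8 : 0 < s ^ (l * (l - 1)) := by positivity
          rw [inv_eq_one_div, inv_mul_eq_div, div_le_div_iff₀ h8 h7, one_mul]
          calc s ^ (k * (k - 1)) ≤ s ^ (l * (l - 1)) * (s ^ (3 * t - 1)) ^ j := h6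
            _ = (s ^ (3 * t - 1)) ^ j * s ^ (l * (l - 1)) := by ring
        have e4 : θ ^ l ≤ θ ^ k := pow_le_pow_right₀ h1 hlk
        have e5 : (k : ℝ) ^ j * (N : ℝ) ^ j * ((s ^ (k * (k - 1)))⁻¹ * (s ^ (3 * t - 1)) ^ j * θ ^ k) =
            L * ((k : ℝ) * N * s ^ (3 * t - 1)) ^ j := by
          rw [hL, mul_pow, mul_pow]
          ring
        calc (k.choose l : ℝ) * ((N - l).choose (k - l) : ℕ) * ((s ^ (l * (l - 1)))⁻¹ * θ ^ l)
            ≤ (k : ℝ) ^ j * (N : ℝ) ^ j *
              ((s ^ (k * (k - 1)))⁻¹ * (s ^ (3 * t - 1)) ^ j * θ ^ k) := by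
              apply mul_le_mul (mul_le_mul e1 e2 (by positivity) (by positivity))
                (mul_le_mul e3 e4 (by positivity) (by positivity)) (by positivity) (by positivity)
          _ = L * ((k : ℝ) * N * s ^ (3 * t - 1)) ^ j := e5
          _ ≤ L * (1 / 2) ^ j := by
              apply mul_le_mul_of_nonneg_left _ hL0
              apply pow_le_pow_left₀ (by positivity)
              linarith
      have : 0 ≤ M * (1 / 2) ^ l := by positivity
      rw [hkl] at hbd ⊢
      linarith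
  unfold OS
  refine (sum_le_sum hterm).trans ?_
  rw [sum_add_distrib, ← mul_sum, ← mul_sum]
  have hgeo : ∑ l ∈ range (k + 1), (1 / 2 : ℝ) ^ l ≤ 2 := sum_geometric_two_le (k + 1)
  have hflip : ∑ l ∈ range (k + 1), (1 / 2 : ℝ) ^ (k - l) = ∑ l ∈ range (k + 1), (1 / 2 : ℝ) ^ l :=
    sum_flip (fun l => (1 / 2 : ℝ) ^ l)
  rw [hflip]
  have h3 : M * ∑ l ∈ range (k + 1), (1 / 2 : ℝ) ^ l ≤ M * 2 := mul_le_mul_of_nonneg_left hgeo hM0
  have h4 : L * ∑ l ∈ range (k + 1), (1 / 2 : ℝ) ^ l ≤ L * 2 := mul_le_mul_of_nonneg_left hgeo hL0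
  linarith

end Run7.h198.BC
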