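import Pool.Agent.Run7.h198.BC.Overlap

set_option autoImplicit false

/-! The choice of the parameters. -/

namespace Run7.h198.BC

open Finset

theorem le_choose (k j : ℕ) : j ≤ (j + k).choose (k + 1) := by
  induction j with
  | zero => simp
  | succ j ih =>
    have h : (j + 1 + k).choose (k + 1) = (j + k).choose k + (j + k).choose (k + 1) := by
      rw [show j + 1 + k = (j + k) + 1 by ring, Nat.choose_succ_succ]
    have h2 : 0 < (j + k).choose k := Nat.choose_pos (by omega)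
    omega

theorem exists_n (s : ℝ) (hs0 : 0 < s) (k : ℕ) (hk : 1 ≤ k) : ∃ n : ℕ,
    (n.choose (k + 1) : ℝ) * s ^ ((k + 1) * k) ≤ 1 / 8 ∧
    1 / 8 < ((n + 1).choose (k + 1) : ℝ) * s ^ ((k + 1) * k) := by
  classical
  have hpos : 0 < s ^ ((k + 1) * k) := pow_pos hs0 _
  have hex : ∃ n : ℕ, 1 / 8 < ((n + 1).choose (k + 1) : ℝ) * s ^ ((k + 1) * k) := by
    obtain ⟨j, hj⟩ := exists_nat_gt (1 / 8 / s ^ ((k + 1) * k))
    rw [div_lt_iff₀ hpos] at hj
    refine ⟨j + k - 1, ?_⟩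
    have e : j + k - 1 + 1 = j + k := by omega
    rw [e]
    refine lt_of_lt_of_le hj ?_
    apply mul_le_mul_of_nonneg_right _ hpos.le
    exact_mod_cast le_choose k j
  refine ⟨Nat.find hex, ?_, Nat.find_spec hex⟩
  rcases Nat.eq_zero_or_pos (Nat.find hex) with h | h
  · rw [h]
    have : Nat.choose 0 (k + 1) = 0 := by simp
    rw [this]
    simp
  · have := Nat.find_min hex (m := Nat.find hex - 1) (by omega)
    rw [Nat.sub_add_cancel h] at this
    exact not_lt.mp this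

theorem n_lower (s : ℝ) (hs0 : 0 < s) (k n : ℕ) (hk : 3 ≤ k)
    (h : 1 / 8 < ((n + 1).choose (k + 1) : ℝ) * s ^ ((k + 1) * k)) : 1 < ((n : ℝ) + 1) * s ^ k := by
  by_contra hcon
  push Not at hcon
  have hpos : 0 < s ^ ((k + 1) * k) := pow_pos hs0 _
  have h1 : ((n + 1).choose (k + 1) : ℝ) ≤ ((n + 1 : ℕ) : ℝ) ^ (k + 1) / ((k + 1).factorial : ℕ) :=
    Nat.choose_le_pow_div (k + 1) (n + 1)
  have hf : (24 : ℝ) ≤ ((k + 1).factorial : ℕ) := by
    have : Nat.factorial 4 ≤ (k + 1).factorial := Nat.factorial_le (by omega)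
    exact_mod_cast this
  have h2 : ((n + 1).choose (k + 1) : ℝ) * s ^ ((k + 1) * k) ≤
      (((n : ℝ) + 1) * s ^ k) ^ (k + 1) / ((k + 1).factorial : ℕ) := by
    calc ((n + 1).choose (k + 1) : ℝ) * s ^ ((k + 1) * k)
        ≤ (((n + 1 : ℕ) : ℝ) ^ (k + 1) / ((k + 1).factorial : ℕ)) * s ^ ((k + 1) * k) :=
          mul_le_mul_of_nonneg_right h1 hpos.le
      _ = (((n : ℝ) + 1) * s ^ k) ^ (k + 1) / ((k + 1).factorial : ℕ) := by
          rw [mul_pow, ← pow_mul, mul_comm (k + 1) k]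
          push_cast
          ring
  have h3 : (((n : ℝ) + 1) * s ^ k) ^ (k + 1) ≤ 1 := pow_le_one₀ (by positivity) hcon
  have h4 : (((n : ℝ) + 1) * s ^ k) ^ (k + 1) / ((k + 1).factorial : ℕ) ≤ 1 / 24 := by
    rw [div_le_div_iff₀ (by linarith) (by norm_num)]
    linarith
  linarith

theorem n_upper (s : ℝ) (hs0 : 0 < s) (hs1 : s < 1) (k n : ℕ)
    (h : (n.choose (k + 1) : ℝ) * s ^ ((k + 1) * k) ≤ 1 / 8) :
    ((n : ℝ) + 1) * s ^ k ≤ 2 * ((k : ℝ) + 1) := by
  have hpos : 0 < s ^ ((k + 1) * k) := pow_pos hs0 _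
  have h1 : (((n - k : ℕ) : ℝ)) ^ (k + 1) / ((k + 1).factorial : ℕ) ≤ (n.choose (k + 1) : ℝ) := by
    have := Nat.pow_le_choose (α := ℝ) (k + 1) n
    have e : n + 1 - (k + 1) = n - k := by omega
    rw [e] at this
    exact_mod_cast this
  have hf : (0 : ℝ) < ((k + 1).factorial : ℕ) := by exact_mod_cast (k + 1).factorial_pos
  have hf2 : (((k + 1).factorial : ℕ) : ℝ) ≤ ((k : ℝ) + 1) ^ (k + 1) := by
    exact_mod_cast (k + 1).factorial_le_pow
  have h2 : (((n - k : ℕ) : ℝ) * s ^ k) ^ (k + 1) ≤ ((k : ℝ) + 1) ^ (k + 1) := by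
    calc (((n - k : ℕ) : ℝ) * s ^ k) ^ (k + 1)
        = (((n - k : ℕ) : ℝ) ^ (k + 1) / ((k + 1).factorial : ℕ)) * s ^ ((k + 1) * k) *
          ((k + 1).factorial : ℕ) := by
          rw [mul_pow, ← pow_mul, mul_comm (k + 1) k]
          field_simp
      _ ≤ (n.choose (k + 1) : ℝ) * s ^ ((k + 1) * k) * ((k + 1).factorial : ℕ) := by
          apply mul_le_mul_of_nonneg_right _ hf.le
          exact mul_le_mul_of_nonneg_right h1 hpos.le
      _ ≤ 1 / 8 * ((k + 1).factorial : ℕ) := mul_le_mul_of_nonneg_right h hf.le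
      _ ≤ ((k : ℝ) + 1) ^ (k + 1) := by linarith
  have h3 : ((n - k : ℕ) : ℝ) * s ^ k ≤ (k : ℝ) + 1 :=
    (pow_le_pow_iff_left₀ (by positivity) (by positivity) (Nat.succ_ne_zero k)).mp h2
  have h4 : (n : ℝ) + 1 ≤ ((n - k : ℕ) : ℝ) + (k + 1) := by
    have : n + 1 ≤ (n - k) + (k + 1) := by omega
    exact_mod_cast this
  have h5 : s ^ k ≤ 1 := pow_le_one₀ hs0.le hs1.le
  have h6 : 0 < s ^ k := pow_pos hs0 _
  calc ((n : ℝ) + 1) * s ^ k ≤ (((n - k : ℕ) : ℝ) + (k + 1)) * s ^ k :=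
        mul_le_mul_of_nonneg_right h4 h6.le
    _ = ((n - k : ℕ) : ℝ) * s ^ k + ((k : ℝ) + 1) * s ^ k := by ring
    _ ≤ (k + 1) + ((k : ℝ) + 1) * 1 := by
        apply add_le_add h3
        exact mul_le_mul_of_nonneg_left h5 (by positivity)
    _ = 2 * ((k : ℝ) + 1) := by ring

theorem mu_lower (s : ℝ) (hs0 : 0 < s) (hs1 : s < 1) (k n : ℕ)
    (h : (n.choose (k + 1) : ℝ) * s ^ ((k + 1) * k) ≤ 1 / 8)
    (h' : 1 / 8 < ((n + 1).choose (k + 1) : ℝ) * s ^ ((k + 1) * k)) :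
    1 ≤ 16 * ((n.choose k : ℝ) * s ^ (k * (k - 1))) * s ^ k := by
  have hup := n_upper s hs0 hs1 k n h
  have hrec : ((n : ℝ) + 1) * (n.choose k : ℝ) = ((n + 1).choose (k + 1) : ℝ) * ((k : ℝ) + 1) := by
    exact_mod_cast Nat.add_one_mul_choose_eq n k
  have hexp : s ^ ((k + 1) * k) = s ^ (k * (k - 1)) * s ^ k * s ^ k := by
    rw [← pow_add, ← pow_add]
    congr 1
    rcases Nat.eq_zero_or_pos k with h0 | h0
    · rw [h0]
    · obtain ⟨a, rfl⟩ : ∃ a, k = a + 1 := ⟨k - 1, by omega⟩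
      have : a + 1 - 1 = a := by omega
      rw [this]
      ring
  set A := s ^ (k * (k - 1)) with hA
  have hApos : 0 < A := pow_pos hs0 _
  have hkpos : 0 < s ^ k := pow_pos hs0 _
  have h1 : ((k : ℝ) + 1) / 8 ≤ 2 * ((k : ℝ) + 1) * ((n.choose k : ℝ) * A) * s ^ k := by
    calc ((k : ℝ) + 1) / 8 = (1 / 8) * ((k : ℝ) + 1) := by ring
      _ ≤ (((n + 1).choose (k + 1) : ℝ) * s ^ ((k + 1) * k)) * ((k : ℝ) + 1) :=
          mul_le_mul_of_nonneg_right h'.le (by positivity)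
      _ = (((n + 1).choose (k + 1) : ℝ) * ((k : ℝ) + 1)) * s ^ ((k + 1) * k) := by ring
      _ = (((n : ℝ) + 1) * s ^ k) * ((n.choose k : ℝ) * A) * s ^ k := by
          rw [← hrec, hexp]; ring
      _ ≤ 2 * ((k : ℝ) + 1) * ((n.choose k : ℝ) * A) * s ^ k := by
          apply mul_le_mul_of_nonneg_right _ hkpos.le
          apply mul_le_mul_of_nonneg_right hup (by positivity)
  have hk1 : (0 : ℝ) < (k : ℝ) + 1 := by positivity
  have h2 : ((k : ℝ) + 1) * (1 / 8) ≤ ((k : ℝ) + 1) * (2 * ((n.choose k : ℝ) * A) * s ^ k) := by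
    linarith
  have h3 := le_of_mul_le_mul_left h2 hk1
  linarith

theorem choose_sub_le (n k r : ℕ) (hr : r ≤ n) (hk : 1 ≤ k) :
    n.choose k ≤ (n - r).choose k + r * (n - 1).choose (k - 1) := by
  induction r with
  | zero => simp
  | succ r ih =>
    have ih' := ih (by omega)
    obtain ⟨k', rfl⟩ : ∃ k', k = k' + 1 := ⟨k - 1, by omega⟩
    have e1 : n - r = (n - (r + 1)) + 1 := by omega
    rw [e1, Nat.choose_succ_succ] at ih'
    have e2 : k' + 1 - 1 = k' := by omega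
    rw [e2] at ih' ⊢
    have h3 : (n - (r + 1)).choose k' ≤ (n - 1).choose k' := Nat.choose_le_choose k' (by omega)
    calc n.choose (k' + 1) ≤ (n - (r + 1)).choose k' + (n - (r + 1)).choose (k' + 1) +
          r * (n - 1).choose k' := ih'
      _ ≤ (n - (r + 1)).choose (k' + 1) + (r + 1) * (n - 1).choose k' := by
          rw [add_mul, one_mul]
          omega

theorem choose_half (n k r : ℕ) (hk : 1 ≤ k) (hn : 1 ≤ n) (hr : 2 * r * k ≤ n) :
    n.choose k ≤ 2 * (n - r).choose k := by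
  have hrn : r ≤ n := by nlinarith
  have h1 := choose_sub_le n k r hrn hk
  have h2 : n * (n - 1).choose (k - 1) = n.choose k * k := by
    obtain ⟨k', rfl⟩ : ∃ k', k = k' + 1 := ⟨k - 1, by omega⟩
    obtain ⟨n', rfl⟩ : ∃ n', n = n' + 1 := ⟨n - 1, by omega⟩
    have e1 : k' + 1 - 1 = k' := by omega
    have e2 : n' + 1 - 1 = n' := by omega
    rw [e1, e2]
    exact Nat.add_one_mul_choose_eq n' k'
  have h3 : n * (2 * r * (n - 1).choose (k - 1)) ≤ n * n.choose k := by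
    calc n * (2 * r * (n - 1).choose (k - 1)) = 2 * r * (n * (n - 1).choose (k - 1)) := by ring
      _ = (2 * r * k) * n.choose k := by rw [h2]; ring
      _ ≤ n * n.choose k := Nat.mul_le_mul_right _ hr
  have h4 := Nat.le_of_mul_le_mul_left h3 hn
  have h5 : 2 * (r * (n - 1).choose (k - 1)) = 2 * r * (n - 1).choose (k - 1) := by ring
  omega

end Run7.h198.BC
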