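import Pool.Agent.W166.Gnp.Transfer

set_option autoImplicit false
set_option linter.unusedSectionVars false

/-! Joint probabilities of the twin events. -/

namespace Run7.h198.BC

open Finset Pool.Agent.W166.Gnp

section gen
variable {α : Type} [DecidableEq α]

theorem Ex_singleton (a : α) (p : ℝ) (f : Finset α → ℝ) :
    Ex {a} p f = (1 - p) * f ∅ + p * f {a} := by
  have h : ({a} : Finset α).powerset = {∅, {a}} := by
    ext S
    simp only [mem_powerset, mem_insert, mem_singleton, subset_singleton_iff]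
  unfold Ex
  rw [h, sum_pair (Ne.symm (singleton_ne_empty a))]
  simp

theorem Ex_insert (a : α) (E : Finset α) (ha : a ∉ E) (p : ℝ) (f : Finset α → ℝ) :
    Ex (insert a E) p f = (1 - p) * Ex E p f + p * Ex E p (fun S => f (insert a S)) := by
  rw [insert_eq, Ex_union (disjoint_singleton_left.mpr ha), Ex_singleton]
  congr 2
  apply Ex_congr
  intro S _
  rw [empty_union]

theorem Ex_empty (p : ℝ) (f : Finset α → ℝ) : Ex ∅ p f = f ∅ := by
  unfold Ex
  simp

/-- the two elements have the same state -/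
def tw (e e' : α) (S : Finset α) : ℝ := if (e ∈ S ↔ e' ∈ S) then 1 else 0

theorem tw_nonneg (e e' : α) (S : Finset α) : 0 ≤ tw e e' S := by
  unfold tw; split_ifs <;> norm_num

theorem tw_inter (e e' : α) (R S : Finset α) (h : e ∈ R) (h' : e' ∈ R) :
    tw e e' (S ∩ R) = tw e e' S := by
  unfold tw
  simp [h, h']

theorem tw_two (a b : α) (hab : a ≠ b) (p : ℝ) :
    Ex {a, b} p (tw a b) = p ^ 2 + (1 - p) ^ 2 := by
  rw [Ex_insert a {b} (by simp [hab]), Ex_singleton, Ex_singleton]
  simp [tw, hab, Ne.symm hab]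
  ring

theorem tw_three (a b c : α) (hab : a ≠ b) (hac : a ≠ c) (hbc : b ≠ c) (p : ℝ) :
    Ex {a, b, c} p (fun S => tw a b S * tw a c S) = p ^ 3 + (1 - p) ^ 3 := by
  rw [Ex_insert a {b, c} (by simp [hab, hac]), Ex_insert b {c} (by simp [hbc]),
    Ex_insert b {c} (by simp [hbc]), Ex_singleton, Ex_singleton, Ex_singleton, Ex_singleton]
  simp [tw, hab, Ne.symm hab, hac, Ne.symm hac, hbc, Ne.symm hbc]
  ring

theorem tw_four (a b c d : α) (hab : a ≠ b) (hac : a ≠ c) (had : a ≠ d) (hbc : b ≠ c)
    (hbd : b ≠ d) (hcd : c ≠ d) (p : ℝ) :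
    Ex {a, b, c, d} p (fun S => tw a b S * tw c d S) = (p ^ 2 + (1 - p) ^ 2) ^ 2 := by
  rw [Ex_insert a {b, c, d} (by simp [hab, hac, had]), Ex_insert b {c, d} (by simp [hbc, hbd]),
    Ex_insert b {c, d} (by simp [hbc, hbd]), Ex_insert c {d} (by simp [hcd]),
    Ex_insert c {d} (by simp [hcd]), Ex_insert c {d} (by simp [hcd]),
    Ex_insert c {d} (by simp [hcd])]
  simp only [Ex_singleton]
  simp [tw, hab, Ne.symm hab, hac, Ne.symm hac, hbc, Ne.symm hbc, had, Ne.symm had, hbd,
    Ne.symm hbd, hcd, Ne.symm hcd]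
  ring

theorem Ex_sub_ne {E E1 : Finset α} (h1 : E1 ⊆ E) (p : ℝ) {f : Finset α → ℝ}
    (h : ∀ S, f S = f (S ∩ E1)) : Ex E p f = Ex E1 p f :=
  Ex_marg h1 p (fun S _ => h S)

end gen

section graph

variable {n : ℕ}

/-- the pairs inside `I` -/
def C (I : Finset (Fin n)) : Finset (Sym2 (Fin n)) :=
  I.offDiag.image (fun x => s(x.1, x.2))

theorem mem_C (I : Finset (Fin n)) (e : Sym2 (Fin n)) :
    e ∈ C I ↔ (¬ e.IsDiag ∧ ∀ x ∈ e, x ∈ I) := by
  induction e using Sym2.ind with
  | _ x y =>
    simp only [C, mem_image, mem_offDiag, Prod.exists, Sym2.mk_isDiag_iff, Sym2.mem_iff,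
      Sym2.eq_iff]
    constructor
    · rintro ⟨a, b, ⟨h1, h2, h3⟩, ⟨rfl, rfl⟩ | ⟨rfl, rfl⟩⟩
      · refine ⟨h3, ?_⟩
        rintro z (rfl | rfl) <;> assumption
      · refine ⟨Ne.symm h3, ?_⟩
        rintro z (rfl | rfl) <;> assumption
    · rintro ⟨h1, h2⟩
      exact ⟨x, y, ⟨h2 x (Or.inl rfl), h2 y (Or.inr rfl), h1⟩, Or.inl ⟨rfl, rfl⟩⟩

theorem card_C (I : Finset (Fin n)) : (C I).card = I.card.choose 2 := by
  have := Sym2.card_image_offDiag I
  exact this

theorem C_inter (I J : Finset (Fin n)) : C I ∩ C J = C (I ∩ J) := by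
  ext e
  simp only [mem_inter, mem_C]
  constructor
  · rintro ⟨⟨h1, h2⟩, h3, h4⟩
    exact ⟨h1, fun x hx => ⟨h2 x hx, h4 x hx⟩⟩
  · rintro ⟨h1, h2⟩
    exact ⟨⟨h1, fun x hx => (h2 x hx).1⟩, h1, fun x hx => (h2 x hx).2⟩

/-- the pairs which have to be absent -/
def D (i j : Fin n) (I : Finset (Fin n)) : Finset (Sym2 (Fin n)) := insert s(i, j) (C I)

/-- indicator of the event: `I` independent, `i, j` nonadjacent and twins on `I` -/
noncomputable def Z (i j : Fin n) (I : Finset (Fin n)) (S : Finset (Sym2 (Fin n))) : ℝ :=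
  (if Disjoint (D i j I) S then 1 else 0) * ∏ w ∈ I, tw s(i, w) s(j, w) S

theorem Z_nonneg (i j : Fin n) (I : Finset (Fin n)) (S : Finset (Sym2 (Fin n))) :
    0 ≤ Z i j I S := by
  unfold Z
  apply mul_nonneg
  · split_ifs <;> norm_num
  · exact prod_nonneg fun w _ => tw_nonneg _ _ _

theorem Z_sq (i j : Fin n) (I : Finset (Fin n)) (S : Finset (Sym2 (Fin n))) :
    Z i j I S * Z i j I S = Z i j I S := by
  have h : ∀ w ∈ I, tw s(i, w) s(j, w) S * tw s(i, w) s(j, w) S = tw s(i, w) s(j, w) S := by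
    intro w _
    unfold tw; split_ifs <;> norm_num
  unfold Z
  rw [mul_mul_mul_comm, ← prod_mul_distrib, prod_congr rfl h]
  congr 1
  split_ifs <;> norm_num

theorem card_D_union {V1 W : Finset (Fin n)}
    (h1 : Disjoint V1 W) {i i' j j' : Fin n}
    (hi : i ∈ V1) (hi' : i' ∈ V1) {I J : Finset (Fin n)}
    (hI : I ⊆ W) (hJ : J ⊆ W) :
    (D i j I ∪ D i' j' J).card = ({s(i, j), s(i', j')} : Finset (Sym2 (Fin n))).card
      + (C I ∪ C J).card := by
  have : D i j I ∪ D i' j' J = {s(i, j), s(i', j')} ∪ (C I ∪ C J) := by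
    ext e
    simp only [D, mem_union, mem_insert, mem_singleton]
    tauto
  rw [this, card_union_of_disjoint]
  rw [Finset.disjoint_left]
  intro e he he2
  have hW : ∀ x ∈ e, x ∈ W := by
    rcases mem_union.mp he2 with h | h
    · exact fun x hx => hI (((mem_C I e).mp h).2 x hx)
    · exact fun x hx => hJ (((mem_C J e).mp h).2 x hx)
  simp only [mem_insert, mem_singleton] at he
  rcases he with rfl | rfl
  · exact Finset.disjoint_left.mp h1 hi (hW i (by simp))
  · exact Finset.disjoint_left.mp h1 hi' (hW i' (by simp))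

/-- the blocks -/
def Rb (i j i' j' : Fin n) (I J : Finset (Fin n)) : Option (Fin n) → Finset (Sym2 (Fin n))
  | none => D i j I ∪ D i' j' J
  | some w => {s(i, w), s(j, w), s(i', w), s(j', w)}

/-- the factors -/
noncomputable def fb (i j i' j' : Fin n) (I J : Finset (Fin n)) :
    Option (Fin n) → Finset (Sym2 (Fin n)) → ℝ
  | none => fun S => if S = ∅ then 1 else 0
  | some w => fun S => (if w ∈ I then tw s(i, w) s(j, w) S else 1) *
      (if w ∈ J then tw s(i', w) s(j', w) S else 1)

theorem Ex_empty_ind (T : Finset (Sym2 (Fin n))) (p : ℝ) :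
    Ex T p (fun S => if S = ∅ then 1 else 0) = (1 - p) ^ T.card := by
  unfold Ex
  rw [Finset.sum_eq_single ∅]
  · simp
  · intro S _ hS
    simp [hS]
  · intro h
    exact absurd (empty_mem_powerset T) h

theorem Ex_ZZ (p : ℝ) {V1 V2 W : Finset (Fin n)} (h12 : Disjoint V1 V2)
    (h1 : Disjoint V1 W) (h2 : Disjoint V2 W) {i i' j j' : Fin n}
    (hi : i ∈ V1) (hi' : i' ∈ V1) (hj : j ∈ V2) (hj' : j' ∈ V2) {I J : Finset (Fin n)}
    (hI : I ⊆ W) (hJ : J ⊆ W) :
    Ex (allE n) p (fun S => Z i j I S * Z i' j' J S) =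
      (1 - p) ^ (D i j I ∪ D i' j' J).card *
        ∏ w ∈ I ∪ J, Ex {s(i, w), s(j, w), s(i', w), s(j', w)} p (fb i j i' j' I J (some w)) := by
  have hx1 : ∀ x ∈ V1, x ∉ W := fun x hx => Finset.disjoint_left.mp h1 hx
  have hx2 : ∀ x ∈ V2, x ∉ W := fun x hx => Finset.disjoint_left.mp h2 hx
  have hx12 : ∀ x ∈ V1, x ∉ V2 := fun x hx => Finset.disjoint_left.mp h12 hx
  have hIJ : I ∪ J ⊆ W := union_subset hI hJ
  have hsome : ∀ w e, e ∈ Rb i j i' j' I J (some w) → ∃ x, x ∉ W ∧ e = s(x, w) := by
    intro w e he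
    simp only [Rb, mem_insert, mem_singleton] at he
    rcases he with rfl | rfl | rfl | rfl
    · exact ⟨i, hx1 i hi, rfl⟩
    · exact ⟨j, hx2 j hj, rfl⟩
    · exact ⟨i', hx1 i' hi', rfl⟩
    · exact ⟨j', hx2 j' hj', rfl⟩
  have hnone : ∀ x w, x ∉ W → w ∈ W → s(x, w) ∉ Rb i j i' j' I J none := by
    intro x w hx hw he
    simp only [Rb, D, mem_union, mem_insert] at he
    rcases he with (he | he) | (he | he)
    · rw [Sym2.eq_iff] at he
      rcases he with ⟨_, rfl⟩ | ⟨_, rfl⟩
      · exact hx2 _ hj hw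
      · exact hx1 _ hi hw
    · exact hx (hI (((mem_C I _).mp he).2 x (by simp)))
    · rw [Sym2.eq_iff] at he
      rcases he with ⟨_, rfl⟩ | ⟨_, rfl⟩
      · exact hx2 _ hj' hw
      · exact hx1 _ hi' hw
    · exact hx (hJ (((mem_C J _).mp he).2 x (by simp)))
  have hE : ∀ v ∈ insertNone (I ∪ J), Rb i j i' j' I J v ⊆ allE n := by
    intro v hv e he
    cases v with
    | none =>
      simp only [Rb, D, mem_union, mem_insert] at he
      rcases he with (he | he) | (he | he)
      · rw [he, mem_allE]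
        rintro rfl
        exact hx12 _ hi hj
      · have := ((mem_C I _).mp he).1
        simpa [allE] using this
      · rw [he, mem_allE]
        rintro rfl
        exact hx12 _ hi' hj'
      · have := ((mem_C J _).mp he).1
        simpa [allE] using this
    | some w =>
      obtain ⟨x, hx, rfl⟩ := hsome w e he
      rw [mem_allE]
      rintro rfl
      exact hx (hIJ (by simpa using hv))
  have hdis : ((insertNone (I ∪ J) : Finset (Option (Fin n))) : Set (Option (Fin n))).PairwiseDisjoint
      (Rb i j i' j' I J) := by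
    intro v hv v' hv' hne
    show Disjoint (Rb i j i' j' I J v) (Rb i j i' j' I J v')
    rw [Finset.disjoint_left]
    intro e he he'
    cases v with
    | none =>
      cases v' with
      | none => exact hne rfl
      | some w' =>
        obtain ⟨x, hx, rfl⟩ := hsome w' e he'
        exact hnone x w' hx (hIJ (by simpa using hv')) he
    | some w =>
      cases v' with
      | none =>
        obtain ⟨x, hx, rfl⟩ := hsome w e he
        exact hnone x w hx (hIJ (by simpa using hv)) he'
      | some w' =>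
        obtain ⟨x, hx, rfl⟩ := hsome w e he
        obtain ⟨y, hy, he2⟩ := hsome w' _ he'
        rw [Sym2.eq_iff] at he2
        rcases he2 with ⟨_, h⟩ | ⟨h, _⟩
        · exact hne (by rw [h])
        · apply hx
          rw [h]
          exact hIJ (by simpa using hv')
  have hfac : ∀ S : Finset (Sym2 (Fin n)), Z i j I S * Z i' j' J S =
      ∏ v ∈ insertNone (I ∪ J), fb i j i' j' I J v (S ∩ Rb i j i' j' I J v) := by
    intro S
    rw [prod_insertNone]
    have e1 : fb i j i' j' I J none (S ∩ Rb i j i' j' I J none) =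
        (if Disjoint (D i j I) S then 1 else 0) * (if Disjoint (D i' j' J) S then 1 else 0) := by
      simp only [fb, Rb]
      have h : S ∩ (D i j I ∪ D i' j' J) = ∅ ↔ Disjoint (D i j I) S ∧ Disjoint (D i' j' J) S := by
        rw [← Finset.disjoint_iff_inter_eq_empty, disjoint_comm, disjoint_union_left]
      by_cases ha : Disjoint (D i j I) S <;> by_cases hb : Disjoint (D i' j' J) S <;>
        simp [h, ha, hb]
    have e2 : ∀ w ∈ I ∪ J, fb i j i' j' I J (some w) (S ∩ Rb i j i' j' I J (some w)) =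
        (if w ∈ I then tw s(i, w) s(j, w) S else 1) *
        (if w ∈ J then tw s(i', w) s(j', w) S else 1) := by
      intro w _
      simp only [fb, Rb]
      rw [tw_inter _ _ _ _ (by simp) (by simp), tw_inter _ _ _ _ (by simp) (by simp)]
    rw [e1, prod_congr rfl e2, prod_mul_distrib, prod_ite_mem, prod_ite_mem]
    have e3 : (I ∪ J) ∩ I = I := by
      rw [inter_comm]; exact inter_eq_left.mpr subset_union_left
    have e4 : (I ∪ J) ∩ J = J := by
      rw [inter_comm]; exact inter_eq_left.mpr subset_union_right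
    rw [e3, e4]
    unfold Z
    ring
  rw [Ex_congr (fun S _ => hfac S), Ex_prod p _ (Rb i j i' j' I J) hE hdis, prod_insertNone]
  congr 1
  exact Ex_empty_ind _ p

/-- the probability that two edges have the same state -/
noncomputable def PP (p : ℝ) : ℝ := p ^ 2 + (1 - p) ^ 2

/-- the probability that three edges have the same state -/
noncomputable def RR (p : ℝ) : ℝ := p ^ 3 + (1 - p) ^ 3

theorem PP_pos (p : ℝ) : 0 < PP p := by
  unfold PP
  nlinarith [sq_nonneg p, sq_nonneg (1 - p), sq_nonneg (2 * p - 1)]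

/-- the correlation factor per common vertex -/
noncomputable def th (p : ℝ) (i j i' j' : Fin n) : ℝ :=
  if i = i' then (if j = j' then 1 / PP p else RR p / PP p ^ 2)
  else (if j = j' then RR p / PP p ^ 2 else 1)

theorem val_eq (p : ℝ) {V1 V2 W : Finset (Fin n)} (h12 : Disjoint V1 V2)
    (h1 : Disjoint V1 W) (h2 : Disjoint V2 W) {i i' j j' : Fin n}
    (hi : i ∈ V1) (hi' : i' ∈ V1) (hj : j ∈ V2) (hj' : j' ∈ V2) {I J : Finset (Fin n)}
    (hI : I ⊆ W) (hJ : J ⊆ W) (w : Fin n) (hw : w ∈ I ∪ J) :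
    Ex {s(i, w), s(j, w), s(i', w), s(j', w)} p (fb i j i' j' I J (some w)) =
      (if w ∈ I then PP p else 1) * (if w ∈ J then PP p else 1) *
        (if w ∈ I ∩ J then th p i j i' j' else 1) := by
  have hP := (PP_pos p).ne'
  have hwW : w ∈ W := (union_subset hI hJ) hw
  have hx1 : ∀ x ∈ V1, x ≠ w := fun x hx h => Finset.disjoint_left.mp h1 hx (h ▸ hwW)
  have hx2 : ∀ x ∈ V2, x ≠ w := fun x hx h => Finset.disjoint_left.mp h2 hx (h ▸ hwW)
  have hx12 : ∀ x ∈ V1, ∀ y ∈ V2, x ≠ y := fun x hx y hy h =>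
    Finset.disjoint_left.mp h12 hx (h ▸ hy)
  have hne : ∀ x y : Fin n, x ≠ w → x ≠ y → s(x, w) ≠ s(y, w) := by
    intro x y hx hxy h
    rw [Sym2.eq_iff] at h
    rcases h with ⟨h, _⟩ | ⟨h, _⟩
    · exact hxy h
    · exact hx h
  by_cases hwI : w ∈ I
  · by_cases hwJ : w ∈ J
    · have hf : fb i j i' j' I J (some w) =
          fun S => tw s(i, w) s(j, w) S * tw s(i', w) s(j', w) S := by
        funext S
        simp only [fb, if_pos hwI, if_pos hwJ]
      rw [hf, if_pos hwI, if_pos hwJ, if_pos (mem_inter.mpr ⟨hwI, hwJ⟩)]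
      by_cases hii : i = i'
      · by_cases hjj : j = j'
        · subst hii; subst hjj
          rw [Ex_sub_ne (E1 := {s(i, w), s(j, w)}) (by intro e; simp only [mem_insert, mem_singleton]; tauto)]
          · have : ∀ S : Finset (Sym2 (Fin n)), S ⊆ {s(i, w), s(j, w)} →
                tw s(i, w) s(j, w) S * tw s(i, w) s(j, w) S = tw s(i, w) s(j, w) S := by
              intro S _
              unfold tw; split_ifs <;> norm_num
            rw [Ex_congr this, tw_two _ _ (hne i j (hx1 i hi) (hx12 i hi j hj))]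
            simp only [th, if_true]
            rw [← PP]
            field_simp
          · intro S
            rw [tw_inter _ _ _ _ (by simp) (by simp)]
        · subst hii
          rw [Ex_sub_ne (E1 := {s(i, w), s(j, w), s(j', w)}) (by intro e; simp only [mem_insert, mem_singleton]; tauto)]
          · rw [tw_three _ _ _ (hne i j (hx1 i hi) (hx12 i hi j hj))
              (hne i j' (hx1 i hi) (hx12 i hi j' hj')) (hne j j' (hx2 j hj) hjj)]
            simp only [th, if_true, if_neg hjj]
            rw [← RR]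
            field_simp
          · intro S
            rw [tw_inter _ _ _ _ (by simp) (by simp), tw_inter _ _ _ _ (by simp) (by simp)]
      · by_cases hjj : j = j'
        · subst hjj
          rw [Ex_sub_ne (E1 := {s(j, w), s(i, w), s(i', w)}) (by intro e; simp only [mem_insert, mem_singleton]; tauto)]
          · have : ∀ S : Finset (Sym2 (Fin n)), S ⊆ {s(j, w), s(i, w), s(i', w)} →
                tw s(i, w) s(j, w) S * tw s(i', w) s(j, w) S =
                tw s(j, w) s(i, w) S * tw s(j, w) s(i', w) S := by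
              intro S _
              unfold tw
              congr 2
              · exact propext ⟨fun h => h.symm, fun h => h.symm⟩
              · exact propext ⟨fun h => h.symm, fun h => h.symm⟩
            rw [Ex_congr this, tw_three _ _ _ (hne i j (hx1 i hi) (hx12 i hi j hj)).symm
              (hne i' j (hx1 i' hi') (hx12 i' hi' j hj)).symm (hne i i' (hx1 i hi) hii)]
            simp only [th, if_true, if_neg hii]
            rw [← RR]
            field_simp
          · intro S
            rw [tw_inter _ _ _ _ (by simp) (by simp), tw_inter _ _ _ _ (by simp) (by simp)]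
        · rw [tw_four _ _ _ _ (hne i j (hx1 i hi) (hx12 i hi j hj)) (hne i i' (hx1 i hi) hii)
            (hne i j' (hx1 i hi) (hx12 i hi j' hj'))
            (hne i' j (hx1 i' hi') (hx12 i' hi' j hj)).symm
            (hne j j' (hx2 j hj) hjj) (hne i' j' (hx1 i' hi') (hx12 i' hi' j' hj'))]
          simp only [th, if_neg hii, if_neg hjj]
          rw [← PP]
          ring
    · have hf : fb i j i' j' I J (some w) = fun S => tw s(i, w) s(j, w) S := by
        funext S
        simp only [fb, if_pos hwI, if_neg hwJ, mul_one]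
      rw [hf, if_pos hwI, if_neg hwJ, if_neg (fun h => hwJ (mem_inter.mp h).2)]
      rw [Ex_sub_ne (E1 := {s(i, w), s(j, w)}) (by intro e; simp only [mem_insert, mem_singleton]; tauto)]
      · rw [tw_two _ _ (hne i j (hx1 i hi) (hx12 i hi j hj)), ← PP]
        ring
      · intro S
        rw [tw_inter _ _ _ _ (by simp) (by simp)]
  · have hwJ : w ∈ J := (mem_union.mp hw).resolve_left hwI
    have hf : fb i j i' j' I J (some w) = fun S => tw s(i', w) s(j', w) S := by
      funext S
      simp only [fb, if_neg hwI, if_pos hwJ, one_mul]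
    rw [hf, if_neg hwI, if_pos hwJ, if_neg (fun h => hwI (mem_inter.mp h).1)]
    rw [Ex_sub_ne (E1 := {s(i', w), s(j', w)}) (by intro e; simp only [mem_insert, mem_singleton]; tauto)]
    · rw [tw_two _ _ (hne i' j' (hx1 i' hi') (hx12 i' hi' j' hj')), ← PP]
      ring
    · intro S
      rw [tw_inter _ _ _ _ (by simp) (by simp)]

theorem Ex_ZZ' (p : ℝ) {V1 V2 W : Finset (Fin n)} (h12 : Disjoint V1 V2)
    (h1 : Disjoint V1 W) (h2 : Disjoint V2 W) {i i' j j' : Fin n}
    (hi : i ∈ V1) (hi' : i' ∈ V1) (hj : j ∈ V2) (hj' : j' ∈ V2) {I J : Finset (Fin n)}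
    (hI : I ⊆ W) (hJ : J ⊆ W) :
    Ex (allE n) p (fun S => Z i j I S * Z i' j' J S) =
      (1 - p) ^ (({s(i, j), s(i', j')} : Finset (Sym2 (Fin n))).card + (C I ∪ C J).card) *
        (PP p ^ I.card * PP p ^ J.card * th p i j i' j' ^ (I ∩ J).card) := by
  rw [Ex_ZZ p h12 h1 h2 hi hi' hj hj' hI hJ, card_D_union h1 hi hi' hI hJ]
  congr 1
  rw [prod_congr rfl (fun w hw => val_eq p h12 h1 h2 hi hi' hj hj' hI hJ w hw)]
  have e3 : (I ∪ J) ∩ I = I := by
    rw [inter_comm]; exact inter_eq_left.mpr subset_union_left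
  have e4 : (I ∪ J) ∩ J = J := by
    rw [inter_comm]; exact inter_eq_left.mpr subset_union_right
  have e5 : (I ∪ J) ∩ (I ∩ J) = I ∩ J := by
    rw [inter_comm]; exact inter_eq_left.mpr (inter_subset_left.trans subset_union_left)
  rw [prod_mul_distrib, prod_mul_distrib, prod_ite_mem, prod_ite_mem, prod_ite_mem, e3, e4, e5,
    prod_const, prod_const, prod_const]

end graph

end Run7.h198.BC
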